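import Pool.Agent.N237.MD.Car
import Pool.Agent.Helper345.SM.spec

/-!
# Statements of the steps (project CB: Bogoliubov automorphisms of the CAR algebra)
-/

set_option autoImplicit false

open Finset Filter Topology MeasureTheory
open scoped ComplexOrder

noncomputable section

universe u

namespace Pool.Agent.N237.MD

/-- the spectral measure of `ξ` with respect to the unitary `U` is singular -/
def SingSpec {H : Type} [NormedAddCommGroup H] [InnerProductSpace ℂ H] (U : H ≃ₗᵢ[ℂ] H) (ξ : H) : Prop :=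
  ∃ σ : Measure (AddCircle (1 : ℝ)), IsFiniteMeasure σ ∧
    (∀ n : ℤ, ∫ t, (fourier n t : ℂ) ∂σ = inner ℂ ξ ((U ^ n) ξ)) ∧
    σ.MutuallySingular (volume : Measure (AddCircle (1 : ℝ)))

/-- CB/1: the quasi-free state of covariance `B` (two-point function only) exists on every C*-algebra which
contains the canonical anticommutation relations -/
def S_STATE : Prop := ∀ (H : Type) [NormedAddCommGroup H] [InnerProductSpace ℂ H] [CompleteSpace H]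
  (A : Type u) [CStarAlgebra A] [Nontrivial A] (c : H →ₗ[ℂ] A), IsCAR c →
  ∀ B : H →L[ℂ] H, B.IsPositive → ‖B‖ ≤ 1 →
  ∃ ρ : A →L[ℂ] ℂ, (∀ x : A, 0 ≤ ρ (star x * x)) ∧ ρ 1 = 1 ∧
    ∀ ξ ζ : H, ρ (c ξ * star (c ζ)) = inner ℂ ζ (B ξ)

/-- CB/2: correlations with a summable kernel -/
def S_CORR : Prop := ∀ (f : ℤ → ℝ) (E : Set ℕ), (∀ n, |f n| ≤ 1) → (∀ n, n ≤ 0 → f n = 0) →
  (∀ k : ℕ, 0 < k → ∀ ε : ℝ, 0 < ε → ∃ N₀ : ℕ, ∀ N : ℕ, N₀ ≤ N → N ∉ E →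
    |∑ n ∈ Icc 1 N, f (n : ℤ) * f ((n : ℤ) + k)| ≤ ε * N) →
  (∃ N₀ : ℕ, ∀ N : ℕ, N₀ ≤ N → (N : ℝ) / 4 ≤ ∑ n ∈ Icc 1 N, f (n : ℤ) ^ 2) →
  ∀ W : ℤ → ℝ, Summable W → (∀ k, 0 ≤ W k) → 0 < W 0 →
  ∃ N₀ : ℕ, ∀ N : ℕ, N₀ ≤ N → N ∉ E →
    W 0 / 8 * N ≤ ∑ n ∈ Icc 1 N, ∑' m : ℤ, f (n : ℤ) * f m * W ((n : ℤ) - m)

/-- CB/3: a vector whose spectral measure is not singular has a nonzero inner product with a vector `η` whose
orbit satisfies Bessel's inequality -/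
def S_BESSEL : Prop := ∀ (H : Type) [NormedAddCommGroup H] [InnerProductSpace ℂ H] [CompleteSpace H]
  (U : H ≃ₗᵢ[ℂ] H) (ξ : H), ¬ SingSpec U ξ → ∃ (η : H) (C : ℝ), 0 < C ∧ inner ℂ η ξ ≠ (0 : ℂ) ∧
    ∀ ζ : H, Summable (fun m : ℤ => ‖(inner ℂ ((U ^ m) η) ζ : ℂ)‖ ^ 2) ∧
      ∑' m : ℤ, ‖(inner ℂ ((U ^ m) η) ζ : ℂ)‖ ^ 2 ≤ C * ‖ζ‖ ^ 2

/-- CB/4: the orbit of a vector with singular spectral measure is close to spaces of sublinear dimension -/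
def S_SING : Prop := ∀ (H : Type) [NormedAddCommGroup H] [InnerProductSpace ℂ H] [CompleteSpace H]
  (U : H ≃ₗᵢ[ℂ] H) (ξ : H), SingSpec U ξ → ∀ ε : ℝ, 0 < ε → ∃ L₀ : ℕ, ∀ L : ℕ, L₀ ≤ L →
    ∃ (d : ℕ) (e : Fin d → H), Orthonormal ℂ e ∧ (d : ℝ) ≤ ε * L ∧
      ∀ h : ℕ, h < L → ‖(U ^ h) ξ - ∑ j, (inner ℂ (e j) ((U ^ h) ξ) : ℂ) • e j‖ ≤ ε

end Pool.Agent.N237.MD
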