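import Pool.Agent.N237.MD.Two
import Pool.Agent.N237.MD.CBStm

set_option autoImplicit false

/-! # Bogoliubov automorphisms: the assembly -/

namespace Pool.Agent.N237.MD

open Finset Filter Topology
open scoped ComplexOrder

noncomputable section

universe u

section oper

variable {H : Type} [NormedAddCommGroup H] [InnerProductSpace ℂ H]

/-- a Bessel family and weights in `[0, 1]` give a positive contraction -/
theorem exists_B [CompleteSpace H] {η : ℤ → H} {C : ℝ} (hC : 0 < C)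
    (hη : ∀ ζ : H, Summable (fun m : ℤ => ‖(inner ℂ (η m) ζ : ℂ)‖ ^ 2) ∧
      ∑' m : ℤ, ‖(inner ℂ (η m) ζ : ℂ)‖ ^ 2 ≤ C * ‖ζ‖ ^ 2)
    {s : ℤ → ℝ} (hs0 : ∀ m, 0 ≤ s m) (hs1 : ∀ m, s m ≤ 1) :
    ∃ B : H →L[ℂ] H, B.IsPositive ∧ ‖B‖ ≤ 1 ∧
      ∀ ζ : H, inner ℂ ζ (B ζ) = ((C⁻¹ * ∑' m : ℤ, s m * ‖(inner ℂ (η m) ζ : ℂ)‖ ^ 2 : ℝ) : ℂ) := by
  classical
  have hmem : ∀ ζ : H, Memℓp (fun m : ℤ => ((Real.sqrt (C⁻¹ * s m) : ℝ) : ℂ) * (inner ℂ (η m) ζ : ℂ)) 2 := by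
    intro ζ
    apply memℓp_gen
    have h1 : ∀ m : ℤ, ‖((Real.sqrt (C⁻¹ * s m) : ℝ) : ℂ) * (inner ℂ (η m) ζ : ℂ)‖ ^ (2 : ENNReal).toReal =
        C⁻¹ * s m * ‖(inner ℂ (η m) ζ : ℂ)‖ ^ 2 := by
      intro m
      have : (2 : ENNReal).toReal = (2 : ℕ) := by norm_num
      rw [this, Real.rpow_natCast, norm_mul, mul_pow, Complex.norm_real, Real.norm_eq_abs, sq_abs,
        Real.sq_sqrt (mul_nonneg (inv_nonneg.2 hC.le) (hs0 m))]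
    simp only [h1]
    refine Summable.of_nonneg_of_le (fun m => ?_) (fun m => ?_) ((hη ζ).1.mul_left C⁻¹)
    · have := hs0 m
      positivity
    · rw [mul_assoc]
      refine mul_le_mul_of_nonneg_left ?_ (inv_nonneg.2 hC.le)
      calc s m * ‖(inner ℂ (η m) ζ : ℂ)‖ ^ 2 ≤ 1 * ‖(inner ℂ (η m) ζ : ℂ)‖ ^ 2 :=
            mul_le_mul_of_nonneg_right (hs1 m) (sq_nonneg _)
        _ = _ := one_mul _
  let T₀ : H →ₗ[ℂ] lp (fun _ : ℤ => ℂ) 2 :=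
    { toFun := fun ζ => ⟨_, hmem ζ⟩
      map_add' := fun x y => by
        ext m
        show _ * (inner ℂ (η m) (x + y) : ℂ) = _ * _ + _ * _
        rw [inner_add_right, mul_add]
      map_smul' := fun a x => by
        ext m
        show _ * (inner ℂ (η m) (a • x) : ℂ) = a * (_ * _)
        rw [inner_smul_right]
        ring }
  have hT₀ : ∀ ζ m, (T₀ ζ : ℤ → ℂ) m = ((Real.sqrt (C⁻¹ * s m) : ℝ) : ℂ) * (inner ℂ (η m) ζ : ℂ) := fun _ _ => rfl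
  have hnorm : ∀ ζ, ‖T₀ ζ‖ ^ 2 = C⁻¹ * ∑' m : ℤ, s m * ‖(inner ℂ (η m) ζ : ℂ)‖ ^ 2 := by
    intro ζ
    have h1 := lp.norm_rpow_eq_tsum (p := 2) (by norm_num) (T₀ ζ)
    have : (2 : ENNReal).toReal = (2 : ℕ) := by norm_num
    rw [this, Real.rpow_natCast] at h1
    rw [h1, ← tsum_mul_left]
    refine tsum_congr fun m => ?_
    rw [hT₀, Real.rpow_natCast, norm_mul, mul_pow, Complex.norm_real, Real.norm_eq_abs, sq_abs,
      Real.sq_sqrt (mul_nonneg (inv_nonneg.2 hC.le) (hs0 m)), mul_assoc]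
  have hle : ∀ ζ, ‖T₀ ζ‖ ≤ 1 * ‖ζ‖ := by
    intro ζ
    rw [one_mul]
    refine le_of_sq_le_sq ?_ (norm_nonneg _)
    rw [hnorm]
    have h2 : ∑' m : ℤ, s m * ‖(inner ℂ (η m) ζ : ℂ)‖ ^ 2 ≤ C * ‖ζ‖ ^ 2 := by
      refine le_trans ?_ (hη ζ).2
      refine Summable.tsum_le_tsum (fun m => ?_) ?_ (hη ζ).1
      · calc s m * ‖(inner ℂ (η m) ζ : ℂ)‖ ^ 2 ≤ 1 * ‖(inner ℂ (η m) ζ : ℂ)‖ ^ 2 :=
              mul_le_mul_of_nonneg_right (hs1 m) (sq_nonneg _)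
          _ = _ := one_mul _
      · refine Summable.of_nonneg_of_le (fun m => mul_nonneg (hs0 m) (sq_nonneg _)) (fun m => ?_) (hη ζ).1
        calc s m * ‖(inner ℂ (η m) ζ : ℂ)‖ ^ 2 ≤ 1 * ‖(inner ℂ (η m) ζ : ℂ)‖ ^ 2 :=
              mul_le_mul_of_nonneg_right (hs1 m) (sq_nonneg _)
          _ = _ := one_mul _
    calc C⁻¹ * ∑' m : ℤ, s m * ‖(inner ℂ (η m) ζ : ℂ)‖ ^ 2 ≤ C⁻¹ * (C * ‖ζ‖ ^ 2) :=
          mul_le_mul_of_nonneg_left h2 (inv_nonneg.2 hC.le)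
      _ = ‖ζ‖ ^ 2 := by field_simp
  let T : H →L[ℂ] lp (fun _ : ℤ => ℂ) 2 := T₀.mkContinuous 1 hle
  have hT : ∀ ζ, T ζ = T₀ ζ := fun _ => rfl
  have hTn : ‖T‖ ≤ 1 := T₀.mkContinuous_norm_le zero_le_one hle
  refine ⟨(ContinuousLinearMap.adjoint T) ∘L T, ?_, ?_, fun ζ => ?_⟩
  · exact ContinuousLinearMap.isPositive_adjoint_comp_self T
  · refine (ContinuousLinearMap.opNorm_comp_le _ _).trans ?_
    rw [LinearIsometryEquiv.norm_map]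
    exact mul_le_one₀ hTn (norm_nonneg _) hTn
  · rw [ContinuousLinearMap.comp_apply, ContinuousLinearMap.adjoint_inner_right,
      inner_self_eq_norm_sq_to_K, hT]
    have := hnorm ζ
    rw [← this]
    push_cast
    rfl

end oper

/-- a state on a unital C*-algebra -/
def IsState {A : Type u} [CStarAlgebra A] (ρ : A →L[ℂ] ℂ) : Prop := (∀ x : A, 0 ≤ ρ (star x * x)) ∧ ρ 1 = 1

lemma zpow_add_apply {H : Type} [NormedAddCommGroup H] [InnerProductSpace ℂ H] (U : H ≃ₗᵢ[ℂ] H) (m n : ℤ) (x : H) :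
    (U ^ (m + n)) x = (U ^ m) ((U ^ n) x) := by
  rw [zpow_add]
  rfl

/-- the key lower bound -/
theorem bog_fails (h1 : S_STATE.{u}) (h2 : S_CORR) (h3 : S_BESSEL) {E : Set ℕ} {f : ℕ → ℤ}
    (hf : ∀ n, |f n| ≤ 1)
    (hcorr : ∀ k : ℕ, 0 < k → ∀ ε : ℝ, 0 < ε → ∃ N₀ : ℕ, ∀ N : ℕ, N₀ ≤ N → N ∉ E →
      |∑ n ∈ Icc 1 N, (f n : ℝ) * f (n + k)| ≤ ε * N)
    (hmean : ∀ ε : ℝ, 0 < ε → ∃ N₀ : ℕ, ∀ N : ℕ, N₀ ≤ N → N ∉ E → |∑ n ∈ Icc 1 N, (f n : ℝ)| ≤ ε * N)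
    (hsq : ∃ N₀ : ℕ, ∀ N : ℕ, N₀ ≤ N → (N : ℝ) / 4 ≤ ∑ n ∈ Icc 1 N, (f n : ℝ) ^ 2)
    {H : Type} [NormedAddCommGroup H] [InnerProductSpace ℂ H] [CompleteSpace H]
    {A : Type u} [CStarAlgebra A] [Nontrivial A] {c : H →ₗ[ℂ] A} (hc : IsCAR c) {U : H ≃ₗᵢ[ℂ] H}
    {α : A →⋆ₐ[ℂ] A} (hα : ∀ ξ, α (c ξ) = c (U ξ)) {ξ : H} (hξ : ¬ SingSpec U ξ) :
    ∃ (κ : ℝ) (ρ : A →L[ℂ] ℂ), 0 < κ ∧ IsState ρ ∧ (∀ n : ℕ, ρ ((α^[n]) (c ξ * star (c ξ))) =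
        ((ρ ((α^[n]) (c ξ * star (c ξ)))).re : ℂ)) ∧
      ∃ N₀ : ℕ, ∀ N : ℕ, N₀ ≤ N → N ∉ E →
        κ * N ≤ ∑ n ∈ Icc 1 N, (f n : ℝ) * (ρ ((α^[n]) (c ξ * star (c ξ)))).re := by
  classical
  obtain ⟨η, C, hC, hηξ, hB⟩ := h3 H U ξ hξ
  set F : ℤ → ℝ := fun m => if 0 < m then (f m.toNat : ℝ) else 0 with hF
  have hFn : ∀ n : ℕ, 1 ≤ n → F n = f n := by
    intro n hn
    simp only [hF]
    rw [if_pos (by exact_mod_cast hn), Int.toNat_natCast]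
  have hF1 : ∀ m, |F m| ≤ 1 := by
    intro m
    simp only [hF]
    split_ifs
    · exact_mod_cast hf _
    · simp
  have hs0 : ∀ m, 0 ≤ (1 + F m) / 2 := fun m => by
    have := (abs_le.1 (hF1 m)).1
    linarith
  have hs1 : ∀ m, (1 + F m) / 2 ≤ 1 := fun m => by
    have := (abs_le.1 (hF1 m)).2
    linarith
  obtain ⟨B, hBp, hBn, hBi⟩ := exists_B (η := fun m : ℤ => (U ^ m) η) hC hB hs0 hs1
  obtain ⟨ρ, hρ0, hρ1, hρ⟩ := h1 H A c hc B hBp hBn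
  -- the kernel
  set W : ℤ → ℝ := fun k => ‖(inner ℂ η ((U ^ k) ξ) : ℂ)‖ ^ 2 with hW
  have hWi : ∀ m k : ℤ, ‖(inner ℂ ((U ^ m) η) ((U ^ k) ξ) : ℂ)‖ ^ 2 = W (k - m) := by
    intro m k
    have : (U ^ k) ξ = (U ^ m) ((U ^ (k - m)) ξ) := by
      rw [← zpow_add_apply]
      congr 2
      ring
    simp only [hW]
    rw [this, LinearIsometryEquiv.inner_map_map]
  have hWs : Summable W := by
    have h4 := (hB ξ).1
    have h5 : (fun m : ℤ => ‖(inner ℂ ((U ^ m) η) ξ : ℂ)‖ ^ 2) = fun m => W (-m) := by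
      funext m
      have := hWi m 0
      rw [zero_sub, zpow_zero] at this
      exact this
    rw [h5] at h4
    exact (Equiv.neg ℤ).summable_iff.1 h4
  have hW0 : 0 < W 0 := by
    simp only [hW, zpow_zero]
    exact pow_pos (norm_pos_iff.2 hηξ) 2
  have hWn : ∀ k, 0 ≤ W k := fun k => sq_nonneg _
  -- the values of the state
  have hval : ∀ n : ℕ, ρ ((α^[n]) (c ξ * star (c ξ))) =
      ((C⁻¹ * ∑' m : ℤ, (1 + F m) / 2 * W ((n : ℤ) - m) : ℝ) : ℂ) := by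
    intro n
    rw [bog_iter hα, hρ]
    have h4 := hBi ((U ^ n) ξ)
    have e : ∀ m : ℤ, (1 + F m) / 2 * ‖(inner ℂ ((U ^ m) η) ((U ^ n) ξ) : ℂ)‖ ^ 2 =
        (1 + F m) / 2 * W ((n : ℤ) - m) := by
      intro m
      have h5 := hWi m n
      rw [zpow_natCast] at h5
      rw [h5]
    rw [h4]
    simp only [e]
  have hval2 : ∀ n : ℕ, (ρ ((α^[n]) (c ξ * star (c ξ)))).re =
      C⁻¹ * ∑' m : ℤ, (1 + F m) / 2 * W ((n : ℤ) - m) := by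
    intro n
    rw [hval, Complex.ofReal_re]
  have hsumW : ∀ n : ℤ, Summable (fun m : ℤ => W (n - m)) := fun n =>
    (Equiv.subLeft n).summable_iff.2 hWs
  have htsumW : ∀ n : ℤ, ∑' m : ℤ, W (n - m) = ∑' k, W k := fun n => (Equiv.subLeft n).tsum_eq W
  have hsumFW : ∀ n : ℤ, Summable (fun m : ℤ => F m * W (n - m)) := by
    intro n
    refine Summable.of_norm_bounded (hsumW n) fun m => ?_
    rw [norm_mul, Real.norm_eq_abs, Real.norm_eq_abs, abs_of_nonneg (hWn _)]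
    calc |F m| * W (n - m) ≤ 1 * W (n - m) := mul_le_mul_of_nonneg_right (hF1 m) (hWn _)
      _ = _ := one_mul _
  have hval3 : ∀ n : ℕ, (ρ ((α^[n]) (c ξ * star (c ξ)))).re =
      C⁻¹ / 2 * (∑' k, W k) + C⁻¹ / 2 * ∑' m : ℤ, F m * W ((n : ℤ) - m) := by
    intro n
    rw [hval2]
    have e1 : ∀ m : ℤ, (1 + F m) / 2 * W ((n : ℤ) - m) =
        (1 / 2) * W ((n : ℤ) - m) + (1 / 2) * (F m * W ((n : ℤ) - m)) := fun m => by ring
    simp only [e1]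
    rw [((hsumW n).mul_left (1 / 2)).tsum_add ((hsumFW n).mul_left (1 / 2)), tsum_mul_left, tsum_mul_left, htsumW]
    ring
  -- the sums
  obtain ⟨N₁, hN₁⟩ := h2 F E hF1 (fun n hn => by
      simp only [hF]
      rw [if_neg (not_lt.2 hn)]) (by
      intro k hk ε hε
      obtain ⟨N₀, h4⟩ := hcorr k hk ε hε
      refine ⟨N₀, fun N hN hNE => le_trans (le_of_eq ?_) (h4 N hN hNE)⟩
      congr 1
      refine sum_congr rfl fun n hn => ?_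
      have hn1 := (mem_Icc.1 hn).1
      rw [hFn n hn1]
      have := hFn (n + k) (by omega)
      push_cast at this
      rw [this]) (by
      obtain ⟨N₀, h4⟩ := hsq
      refine ⟨N₀, fun N hN => (h4 N hN).trans (le_of_eq ?_)⟩
      refine sum_congr rfl fun n hn => ?_
      rw [hFn n (mem_Icc.1 hn).1]) W hWs hWn hW0
  obtain ⟨w, hw⟩ : ∃ w : ℝ, w = ∑' k, W k := ⟨_, rfl⟩
  have hw0 : 0 ≤ w := by rw [hw]; exact tsum_nonneg hWn
  obtain ⟨N₂, hN₂⟩ := hmean (W 0 / 16 / (w + 1)) (by positivity)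
  refine ⟨C⁻¹ / 2 * (W 0 / 16), ρ, by positivity, ⟨hρ0, hρ1⟩, fun n => by
    rw [hval2, hval], max N₁ N₂, fun N hN hNE => ?_⟩
  have h5 := hN₁ N (le_trans (le_max_left _ _) hN) hNE
  have h6 := hN₂ N (le_trans (le_max_right _ _) hN) hNE
  have h7 : ∑ n ∈ Icc 1 N, (f n : ℝ) * (ρ ((α^[n]) (c ξ * star (c ξ)))).re =
      C⁻¹ / 2 * (w * (∑ n ∈ Icc 1 N, (f n : ℝ)) +
        ∑ n ∈ Icc 1 N, ∑' m : ℤ, F (n : ℤ) * F m * W ((n : ℤ) - m)) := by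
    rw [mul_add, mul_sum, mul_sum, mul_sum, ← sum_add_distrib]
    refine sum_congr rfl fun n hn => ?_
    rw [hval3, ← hw, hFn n (mem_Icc.1 hn).1]
    have : ∑' m : ℤ, (f n : ℝ) * F m * W ((n : ℤ) - m) = f n * ∑' m : ℤ, F m * W ((n : ℤ) - m) := by
      rw [← tsum_mul_left]
      exact tsum_congr fun m => by ring
    rw [this]
    ring
  rw [h7, mul_assoc]
  refine mul_le_mul_of_nonneg_left ?_ (by positivity)
  have h8 : -(W 0 / 16 * N) ≤ w * ∑ n ∈ Icc 1 N, (f n : ℝ) := by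
    have h9 : |w * ∑ n ∈ Icc 1 N, (f n : ℝ)| ≤ W 0 / 16 * N := by
      rw [abs_mul, abs_of_nonneg hw0]
      calc w * |∑ n ∈ Icc 1 N, (f n : ℝ)| ≤ (w + 1) * (W 0 / 16 / (w + 1) * N) := by
            refine mul_le_mul (by linarith) h6 (abs_nonneg _) (by linarith)
        _ = W 0 / 16 * N := by field_simp
    exact (abs_le.1 h9).1
  linarith

end

end Pool.Agent.N237.MD
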