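import Mathlib

set_option autoImplicit false

/-! # The canonical anticommutation relations -/

namespace Pool.Agent.N237.MD

open Finset

noncomputable section

universe u v

/-- the canonical anticommutation relations for the creation operators `c ξ` -/
structure IsCAR {H : Type v} [NormedAddCommGroup H] [InnerProductSpace ℂ H] {A : Type u} [CStarAlgebra A]
    (c : H →ₗ[ℂ] A) : Prop where
  anti : ∀ ξ η, c ξ * c η + c η * c ξ = 0
  rel : ∀ ξ η, star (c ξ) * c η + c η * star (c ξ) = (inner ℂ ξ η : ℂ) • (1 : A)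

variable {H : Type v} [NormedAddCommGroup H] [InnerProductSpace ℂ H] {A : Type u} [CStarAlgebra A]
  {c : H →ₗ[ℂ] A}

namespace IsCAR

variable (h : IsCAR c)
include h

lemma norm_le (ξ : H) : ‖c ξ‖ ≤ ‖ξ‖ := by
  letI : PartialOrder A := CStarAlgebra.spectralOrder A
  haveI : StarOrderedRing A := CStarAlgebra.spectralOrderedRing A
  have h1 := h.rel ξ ξ
  have h2 : (0 : A) ≤ c ξ * star (c ξ) := mul_star_self_nonneg _
  have h3 : (0 : A) ≤ star (c ξ) * c ξ := star_mul_self_nonneg _
  have h4 : star (c ξ) * c ξ ≤ (inner ℂ ξ ξ : ℂ) • (1 : A) := by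
    rw [← h1]
    exact le_add_of_nonneg_right h2
  have h5 := CStarAlgebra.norm_le_norm_of_nonneg_of_le h3 h4
  rw [CStarRing.norm_star_mul_self, norm_smul] at h5
  have h6 : ‖(inner ℂ ξ ξ : ℂ)‖ = ‖ξ‖ * ‖ξ‖ := by
    rw [inner_self_eq_norm_sq_to_K, norm_pow, sq]
    simp
  rw [h6] at h5
  rcases subsingleton_or_nontrivial A with hA | hA
  · rw [Subsingleton.elim (c ξ) 0, norm_zero]
    exact norm_nonneg _
  · rw [norm_one, mul_one] at h5
    exact (mul_self_le_mul_self_iff (norm_nonneg _) (norm_nonneg _)).2 h5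

lemma norm_star_le (ξ : H) : ‖star (c ξ)‖ ≤ ‖ξ‖ := by
  rw [norm_star]
  exact h.norm_le ξ

lemma sq_zero (ξ : H) : c ξ * c ξ = 0 := by
  have h1 := h.anti ξ ξ
  have h2 : (2 : ℂ) • (c ξ * c ξ) = 0 := by rw [two_smul]; exact h1
  rcases smul_eq_zero.1 h2 with h3 | h3
  · norm_num at h3
  · exact h3

lemma star_anti (ξ η : H) : star (c ξ) * star (c η) + star (c η) * star (c ξ) = 0 := by
  have h1 := congrArg star (h.anti η ξ)
  rw [star_add, star_mul, star_mul, star_zero] at h1
  exact h1

/-- anticommutation -/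
lemma ac (ξ η : H) : c ξ * c η = - (c η * c ξ) := eq_neg_of_add_eq_zero_left (h.anti ξ η)

lemma star_ac (ξ η : H) : star (c ξ) * star (c η) = - (star (c η) * star (c ξ)) :=
  eq_neg_of_add_eq_zero_left (h.star_anti ξ η)

lemma rel_ac {ξ η : H} (hz : (inner ℂ ξ η : ℂ) = 0) : star (c ξ) * c η = - (c η * star (c ξ)) := by
  have h1 := h.rel ξ η
  rw [hz, zero_smul] at h1
  exact eq_neg_of_add_eq_zero_left h1

/-- number operators commute with the fields of orthogonal vectors -/
lemma num_comm {e ζ : H} (hz : (inner ℂ e ζ : ℂ) = 0) :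
    (c e * star (c e)) * c ζ = c ζ * (c e * star (c e)) := by
  calc (c e * star (c e)) * c ζ = c e * (star (c e) * c ζ) := mul_assoc _ _ _
    _ = c e * -(c ζ * star (c e)) := by rw [h.rel_ac hz]
    _ = -(c e * c ζ) * star (c e) := by rw [mul_neg, neg_mul, mul_assoc]
    _ = c ζ * c e * star (c e) := by rw [h.ac e ζ, neg_neg]
    _ = _ := mul_assoc _ _ _

lemma num_comm_star {e ζ : H} (hz : (inner ℂ e ζ : ℂ) = 0) :
    (c e * star (c e)) * star (c ζ) = star (c ζ) * (c e * star (c e)) := by
  have h1 := congrArg star (h.num_comm hz)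
  simp only [star_mul, star_star] at h1
  exact h1.symm

lemma num_add {e : H} (he : ‖e‖ = 1) : star (c e) * c e + c e * star (c e) = 1 := by
  rw [h.rel, inner_self_eq_norm_sq_to_K, he]
  simp

lemma num_idem {e : H} (he : ‖e‖ = 1) : (c e * star (c e)) * (c e * star (c e)) = c e * star (c e) := by
  have h1 : star (c e) * c e = 1 - c e * star (c e) := eq_sub_of_add_eq (h.num_add he)
  calc (c e * star (c e)) * (c e * star (c e)) = c e * (star (c e) * c e) * star (c e) := by
        simp only [mul_assoc]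
    _ = c e * star (c e) - (c e * c e) * (star (c e) * star (c e)) := by
        rw [h1]; noncomm_ring
    _ = _ := by rw [h.sq_zero, zero_mul, sub_zero]

lemma num_idem' {e : H} (he : ‖e‖ = 1) :
    (star (c e) * c e) * (star (c e) * c e) = star (c e) * c e := by
  have h1 : star (c e) * c e = 1 - c e * star (c e) := eq_sub_of_add_eq (h.num_add he)
  rw [h1, mul_sub, sub_mul, sub_mul, one_mul, one_mul, mul_one, h.num_idem he]
  abel

lemma num_mul {e : H} (he : ‖e‖ = 1) : (c e * star (c e)) * (star (c e) * c e) = 0 := by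
  have h1 : star (c e) * c e = 1 - c e * star (c e) := eq_sub_of_add_eq (h.num_add he)
  rw [h1, mul_sub, mul_one, h.num_idem he, sub_self]

/-- joint eigenprojections of number operators do not vanish -/
theorem exists_q [Nontrivial A] {ι : Type*} [DecidableEq ι] {e : ι → H} (he : Orthonormal ℂ e) (P : ι → Prop)
    [DecidablePred P] (s : Finset ι) :
    ∃ q : A, q ≠ 0 ∧ (∀ ζ : H, (∀ j ∈ s, (inner ℂ (e j) ζ : ℂ) = 0) → q * c ζ = c ζ * q ∧
      q * star (c ζ) = star (c ζ) * q) ∧
      ∀ j ∈ s, (c (e j) * star (c (e j))) * q = if P j then q else 0 := by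
  induction s using Finset.induction_on with
  | empty =>
    refine ⟨1, one_ne_zero, fun ζ _ => ⟨by rw [one_mul, mul_one], by rw [one_mul, mul_one]⟩, fun j hj => ?_⟩
    exact absurd hj (notMem_empty j)
  | insert i s hi ih =>
    obtain ⟨q, hq0, hqc, hqn⟩ := ih
    have hei : ‖e i‖ = 1 := he.1 i
    have horth : ∀ j ∈ s, (inner ℂ (e j) (e i) : ℂ) = 0 := fun j hj =>
      he.2 (fun hji => hi (hji ▸ hj))
    have horth' : ∀ j ∈ s, (inner ℂ (e i) (e j) : ℂ) = 0 := fun j hj =>
      he.2 (fun hji => hi (hji ▸ hj))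
    obtain ⟨hci, hcs⟩ := hqc (e i) horth
    set a := star (c (e i)) with ha
    set b := c (e i) with hb
    have hab : a * b + b * a = 1 := h.num_add hei
    have hbb : b * b = 0 := h.sq_zero _
    have haa : a * a = 0 := by
      have := congrArg star hbb
      rw [star_mul, star_zero] at this
      exact this
    have hn1 : (b * a) * (b * a) = b * a := h.num_idem hei
    have hn2 : (a * b) * (a * b) = a * b := h.num_idem' hei
    have hn3 : (b * a) * (a * b) = 0 := h.num_mul hei
    have hqn' : q * (b * a) = (b * a) * q := by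
      rw [← mul_assoc, hci, mul_assoc, hcs, ← mul_assoc]
    have hqn'' : q * (a * b) = (a * b) * q := by
      rw [← mul_assoc, hcs, mul_assoc, hci, ← mul_assoc]
    have hne1 : (b * a) * q ≠ 0 := by
      intro h0
      have h1 : (a * b) * q = 0 := by
        have h2 : a * ((b * a) * q) * b = (a * b) * ((a * b) * q) := by
          calc a * ((b * a) * q) * b = a * (b * a) * (q * b) := by simp only [mul_assoc]
            _ = a * (b * a) * (b * q) := by rw [hci]
            _ = _ := by simp only [mul_assoc]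
        rw [h0, mul_zero, zero_mul, ← mul_assoc, hn2] at h2
        exact h2.symm
      apply hq0
      calc q = (a * b + b * a) * q := by rw [hab, one_mul]
        _ = 0 := by rw [add_mul, h0, h1, add_zero]
    have hne2 : (a * b) * q ≠ 0 := by
      intro h0
      have h1 : (b * a) * q = 0 := by
        have h2 : b * ((a * b) * q) * a = (b * a) * ((b * a) * q) := by
          calc b * ((a * b) * q) * a = b * (a * b) * (q * a) := by simp only [mul_assoc]
            _ = b * (a * b) * (a * q) := by rw [hcs]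
            _ = _ := by simp only [mul_assoc]
        rw [h0, mul_zero, zero_mul, ← mul_assoc, hn1] at h2
        exact h2.symm
      apply hq0
      calc q = (a * b + b * a) * q := by rw [hab, one_mul]
        _ = 0 := by rw [add_mul, h0, h1, add_zero]
    have hA1 : a * b = 1 - b * a := eq_sub_of_add_eq hab
    -- the other number operators
    have hcomm : ∀ j ∈ s, (c (e j) * star (c (e j))) * (b * a) = (b * a) * (c (e j) * star (c (e j))) := by
      intro j hj
      rw [← mul_assoc, h.num_comm (horth j hj), mul_assoc, h.num_comm_star (horth j hj), ← mul_assoc]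
    have hcomm' : ∀ j ∈ s, (c (e j) * star (c (e j))) * (a * b) = (a * b) * (c (e j) * star (c (e j))) := by
      intro j hj
      rw [hA1, mul_sub, sub_mul, mul_one, one_mul, hcomm j hj]
    have hz : ∀ ζ : H, (∀ j ∈ insert i s, (inner ℂ (e j) ζ : ℂ) = 0) →
        ((b * a) * c ζ = c ζ * (b * a) ∧ (b * a) * star (c ζ) = star (c ζ) * (b * a)) ∧
        (q * c ζ = c ζ * q ∧ q * star (c ζ) = star (c ζ) * q) := by
      intro ζ hζ
      exact ⟨⟨h.num_comm (hζ i (mem_insert_self _ _)), h.num_comm_star (hζ i (mem_insert_self _ _))⟩,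
        hqc ζ fun j hj => hζ j (mem_insert_of_mem hj)⟩
    by_cases hP : P i
    · refine ⟨(b * a) * q, hne1, fun ζ hζ => ?_, fun j hj => ?_⟩
      · obtain ⟨⟨h1, h2⟩, h3, h4⟩ := hz ζ hζ
        constructor
        · rw [mul_assoc, h3, ← mul_assoc, h1, mul_assoc]
        · rw [mul_assoc, h4, ← mul_assoc, h2, mul_assoc]
      · rcases mem_insert.1 hj with rfl | hj
        · rw [if_pos hP, ← mul_assoc, hn1]
        · rw [← mul_assoc, hcomm j hj, mul_assoc, hqn j hj]
          split_ifs
          · rfl
          · rw [mul_zero]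
    · refine ⟨(a * b) * q, hne2, fun ζ hζ => ?_, fun j hj => ?_⟩
      · obtain ⟨⟨h1, h2⟩, h3, h4⟩ := hz ζ hζ
        have h1' : (a * b) * c ζ = c ζ * (a * b) := by rw [hA1, sub_mul, mul_sub, one_mul, mul_one, h1]
        have h2' : (a * b) * star (c ζ) = star (c ζ) * (a * b) := by
          rw [hA1, sub_mul, mul_sub, one_mul, mul_one, h2]
        constructor
        · rw [mul_assoc, h3, ← mul_assoc, h1', mul_assoc]
        · rw [mul_assoc, h4, ← mul_assoc, h2', mul_assoc]
      · rcases mem_insert.1 hj with rfl | hj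
        · rw [if_neg hP, ← mul_assoc, hn3, zero_mul]
        · rw [← mul_assoc, hcomm' j hj, mul_assoc, hqn j hj]
          split_ifs
          · rfl
          · rw [mul_zero]

/-- the norm of a diagonal one-body observable -/
theorem diag_norm [Nontrivial A] {d : ℕ} {e : Fin d → H} (he : Orthonormal ℂ e) (lam : Fin d → ℝ) :
    ∑ j, |lam j| ≤ 2 * ‖∑ j, ((lam j : ℝ) : ℂ) • (c (e j) * star (c (e j)))‖ := by
  classical
  set D := ∑ j, ((lam j : ℝ) : ℂ) • (c (e j) * star (c (e j))) with hD
  have key : ∀ P : Fin d → Prop, |∑ j, if P j then lam j else 0| ≤ ‖D‖ := by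
    intro P
    obtain ⟨q, hq0, -, hq⟩ := h.exists_q he P univ
    have h1 : D * q = ((∑ j, if P j then lam j else 0 : ℝ) : ℂ) • q := by
      rw [hD, sum_mul, Complex.ofReal_sum, sum_smul]
      refine sum_congr rfl fun j _ => ?_
      rw [smul_mul_assoc, hq j (mem_univ j)]
      split_ifs
      · rfl
      · simp
    have h2 : ‖D * q‖ ≤ ‖D‖ * ‖q‖ := norm_mul_le _ _
    rw [h1, norm_smul, Complex.norm_real, Real.norm_eq_abs] at h2
    exact le_of_mul_le_mul_right h2 (norm_pos_iff.2 hq0)
  have h1 : |∑ j, if 0 < lam j then lam j else 0| ≤ ‖D‖ := by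
    have := key fun j => 0 < lam j
    simpa using this
  have h2 : |∑ j, if ¬ 0 < lam j then lam j else 0| ≤ ‖D‖ := by
    have := key fun j => ¬ 0 < lam j
    refine (le_of_eq ?_).trans this
    congr 1
    exact sum_congr rfl fun j _ => by congr
  have h3 : ∑ j, |lam j| = (∑ j, if 0 < lam j then lam j else 0) - ∑ j, if ¬ 0 < lam j then lam j else 0 := by
    rw [← sum_sub_distrib]
    refine sum_congr rfl fun j _ => ?_
    by_cases hj : 0 < lam j
    · simp [hj, abs_of_pos hj]
    · simp [hj, abs_of_nonpos (not_lt.1 hj)]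
  have h4 := le_abs_self (∑ j, if 0 < lam j then lam j else 0)
  have h5 := neg_abs_le (∑ j, if ¬ 0 < lam j then lam j else 0)
  linarith

end IsCAR

end

end Pool.Agent.N237.MD
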