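import Mathlib

set_option autoImplicit false

/-! # Lower bounds: logarithmic means, squarefree numbers -/

namespace Pool.Agent.N237.MD

open Finset Filter Topology

noncomputable section

lemma abel_log (a : ℕ → ℝ) (N : ℕ) :
    ∑ n ∈ Icc 1 N, a n / n = ∑ m ∈ Icc 1 N, (∑ n ∈ Icc 1 m, a n) / (m * (m + 1)) +
      (∑ n ∈ Icc 1 N, a n) / (N + 1) := by
  induction N with
  | zero => simp
  | succ N ih =>
    rw [sum_Icc_succ_top (by omega), ih, sum_Icc_succ_top (by omega) (fun m : ℕ =>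
      (∑ n ∈ Icc 1 m, a n) / ((m : ℝ) * (m + 1))), sum_Icc_succ_top (by omega) a]
    push_cast
    have h1 : (N : ℝ) + 1 ≠ 0 := by positivity
    have h2 : (N : ℝ) + 1 + 1 ≠ 0 := by positivity
    field_simp
    ring

open Classical in
/-- lower bounds for the long averages outside a set of logarithmic density zero give a lower bound for the
logarithmic means -/
theorem log_lower {E : Set ℕ} (hE : Tendsto
    (fun X : ℕ => (∑ n ∈ Icc 1 X, if n ∈ E then (1 : ℝ) / n else 0) / Real.log X) atTop (𝓝 0))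
    {a : ℕ → ℝ} {M κ : ℝ} (hM : ∀ n, |a n| ≤ M) (hκ : 0 < κ)
    (ha : ∃ N₀ : ℕ, ∀ N : ℕ, N₀ ≤ N → N ∉ E → κ * N ≤ ∑ n ∈ Icc 1 N, a n) :
    ∃ N₀ : ℕ, ∀ N : ℕ, N₀ ≤ N → κ / 2 * Real.log N ≤ ∑ n ∈ Icc 1 N, a n / n := by
  obtain ⟨N₀, hN₀⟩ := ha
  have hM0 : 0 ≤ M := (abs_nonneg _).trans (hM 0)
  have hS : ∀ N : ℕ, |∑ n ∈ Icc 1 N, a n| ≤ M * N := by
    intro N
    refine (abs_sum_le_sum_abs _ _).trans ((sum_le_sum fun n _ => hM n).trans (le_of_eq ?_))
    rw [sum_const, Nat.card_Icc, nsmul_eq_mul, Nat.add_sub_cancel, mul_comm]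
  obtain ⟨C₀, hC₀⟩ : ∃ C₀ : ℝ, C₀ = ∑ m ∈ Icc 1 N₀, (1 : ℝ) / m := ⟨_, rfl⟩
  have hC0 : 0 ≤ C₀ := by rw [hC₀]; exact sum_nonneg fun _ _ => by positivity
  -- main inequality
  have key : ∀ N : ℕ, κ * (∑ m ∈ Icc 1 N, (1 : ℝ) / (m + 1)) -
      (κ + M) * ((∑ n ∈ Icc 1 N, if n ∈ E then (1 : ℝ) / n else 0) + C₀) - M ≤ ∑ n ∈ Icc 1 N, a n / n := by
    intro N
    rw [abel_log]
    have h1 : -M ≤ (∑ n ∈ Icc 1 N, a n) / (N + 1) := by
      rw [le_div_iff₀ (by positivity)]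
      have := (abs_le.1 (hS N)).1
      nlinarith
    have h2 : ∀ m ∈ Icc 1 N, κ * ((1 : ℝ) / (m + 1)) - (κ + M) * ((if m ∈ E then (1 : ℝ) / m else 0) +
        if m ≤ N₀ then (1 : ℝ) / m else 0) ≤ (∑ n ∈ Icc 1 m, a n) / (m * (m + 1)) := by
      intro m hm
      have hm1 : 1 ≤ m := (mem_Icc.1 hm).1
      have hm0 : (0 : ℝ) < m := by exact_mod_cast hm1
      have hle : -(M / (m + 1)) ≤ (∑ n ∈ Icc 1 m, a n) / ((m : ℝ) * (m + 1)) := by
        rw [le_div_iff₀ (by positivity)]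
        have h3 := (abs_le.1 (hS m)).1
        calc -(M / ((m : ℝ) + 1)) * (m * (m + 1)) = -(M * m) := by field_simp
          _ ≤ _ := h3
      have hle2 : (1 : ℝ) / (m + 1) ≤ 1 / m := by
        apply one_div_le_one_div_of_le hm0
        linarith
      have hbad : κ * ((1 : ℝ) / (m + 1)) - (κ + M) * (1 / m) ≤ (∑ n ∈ Icc 1 m, a n) / (m * (m + 1)) := by
        refine le_trans ?_ hle
        have h4 : (κ + M) * ((1 : ℝ) / (m + 1)) ≤ (κ + M) * (1 / m) :=
          mul_le_mul_of_nonneg_left hle2 (by linarith)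
        have h5 : M / ((m : ℝ) + 1) = M * (1 / (m + 1)) := by ring
        rw [h5]
        linarith
      by_cases hE1 : m ∈ E
      · rw [if_pos hE1]
        refine le_trans ?_ hbad
        have h6 : 0 ≤ (κ + M) * (if m ≤ N₀ then (1 : ℝ) / m else 0) := by
          refine mul_nonneg (by linarith) ?_
          split_ifs
          · positivity
          · exact le_rfl
        rw [mul_add]
        linarith
      · rw [if_neg hE1, zero_add]
        by_cases hN1 : m ≤ N₀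
        · rw [if_pos hN1]
          exact hbad
        · rw [if_neg hN1, mul_zero, sub_zero]
          have h7 := hN₀ m (by omega) hE1
          rw [le_div_iff₀ (by positivity)]
          calc κ * (1 / ((m : ℝ) + 1)) * (m * (m + 1)) = κ * m := by field_simp
            _ ≤ _ := h7
    have h3 := sum_le_sum h2
    rw [sum_sub_distrib, ← mul_sum, ← mul_sum, sum_add_distrib] at h3
    have h4 : ∑ m ∈ Icc 1 N, (if m ≤ N₀ then (1 : ℝ) / m else 0) ≤ C₀ := by
      rw [← sum_filter, hC₀]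
      refine sum_le_sum_of_subset_of_nonneg ?_ fun _ _ _ => by positivity
      intro m hm
      rw [mem_filter, mem_Icc] at hm
      exact mem_Icc.2 ⟨hm.1.1, hm.2⟩
    have h5 : (κ + M) * ((∑ m ∈ Icc 1 N, if m ∈ E then (1 : ℝ) / m else 0) +
        ∑ m ∈ Icc 1 N, (if m ≤ N₀ then (1 : ℝ) / m else 0)) ≤
        (κ + M) * ((∑ n ∈ Icc 1 N, if n ∈ E then (1 : ℝ) / n else 0) + C₀) :=
      mul_le_mul_of_nonneg_left (by linarith) (by linarith)
    linarith
  -- the harmonic sum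
  have hharm : ∀ N : ℕ, 1 ≤ N → Real.log N - 1 ≤ ∑ m ∈ Icc 1 N, (1 : ℝ) / (m + 1) := by
    intro N hN
    have h1 := log_add_one_le_harmonic (N + 1)
    have h2 : ((harmonic (N + 1) : ℚ) : ℝ) = 1 + ∑ m ∈ Icc 1 N, (1 : ℝ) / (m + 1) := by
      have h3 : ((harmonic (N + 1) : ℚ) : ℝ) = ∑ i ∈ range (N + 1), ((i : ℝ) + 1)⁻¹ := by
        rw [harmonic]
        push_cast
        rfl
      rw [h3, sum_range_succ']
      have h4 : ∑ m ∈ Icc 1 N, (1 : ℝ) / (m + 1) = ∑ i ∈ range N, (((i + 1 : ℕ) : ℝ) + 1)⁻¹ := by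
        rw [range_eq_Ico, sum_Ico_add' (fun i : ℕ => ((i : ℝ) + 1)⁻¹) 0 N 1]
        refine sum_congr ?_ fun m _ => by rw [one_div]
        ext m
        rw [mem_Icc, mem_Ico]
        omega
      rw [h4]
      simp
      ring
    have h5 : Real.log N ≤ Real.log ((N + 1 + 1 : ℕ) : ℝ) := by
      apply Real.log_le_log
      · exact_mod_cast hN
      · push_cast
        linarith
    rw [h2] at h1
    have h6 : Real.log ((N + 1 + 1 : ℕ) : ℝ) ≤ 1 + ∑ m ∈ Icc 1 N, (1 : ℝ) / (m + 1) := by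
      exact_mod_cast h1
    linarith
  obtain ⟨δ, hδ⟩ : ∃ δ : ℝ, δ = κ / (4 * (κ + M)) := ⟨_, rfl⟩
  have hδ0 : 0 < δ := by rw [hδ]; positivity
  have hlog : Tendsto (fun N : ℕ => Real.log N) atTop atTop :=
    Real.tendsto_log_atTop.comp tendsto_natCast_atTop_atTop
  obtain ⟨N₁, hN₁⟩ := eventually_atTop.1 ((hE.eventually_lt_const hδ0).and
    ((hlog.eventually_ge_atTop (4 / κ * ((κ + M) * C₀ + M + κ))).and
      ((hlog.eventually_gt_atTop 0).and (eventually_ge_atTop 1))))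
  refine ⟨N₁, fun N hN => ?_⟩
  obtain ⟨h1, h2, h3, h4⟩ := hN₁ N hN
  rw [div_lt_iff₀ h3] at h1
  have h5 := key N
  have h6 := hharm N h4
  have h7 : (κ + M) * (∑ n ∈ Icc 1 N, if n ∈ E then (1 : ℝ) / n else 0) ≤ κ / 4 * Real.log N := by
    calc (κ + M) * (∑ n ∈ Icc 1 N, if n ∈ E then (1 : ℝ) / n else 0) ≤ (κ + M) * (δ * Real.log N) :=
          mul_le_mul_of_nonneg_left h1.le (by linarith)
      _ = κ / 4 * Real.log N := by
          rw [hδ]
          field_simp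
  have h8 : (κ + M) * C₀ + M + κ ≤ κ / 4 * Real.log N := by
    have := mul_le_mul_of_nonneg_left h2 (by positivity : 0 ≤ κ / 4)
    calc (κ + M) * C₀ + M + κ = κ / 4 * (4 / κ * ((κ + M) * C₀ + M + κ)) := by field_simp
      _ ≤ _ := this
  have h9 : κ * (Real.log N - 1) ≤ κ * ∑ m ∈ Icc 1 N, (1 : ℝ) / (m + 1) := mul_le_mul_of_nonneg_left h6 hκ.le
  rw [mul_add] at h5
  linarith

/-- at least a quarter of the integers are squarefree -/
theorem sqfree_lower (N : ℕ) : (N : ℝ) / 4 ≤ ∑ n ∈ Icc 1 N, ((ArithmeticFunction.moebius n : ℤ) : ℝ) ^ 2 := by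
  classical
  have h1 : ∀ n ∈ Icc 1 N, (1 : ℝ) - ∑ d ∈ Icc 2 N, (if d ^ 2 ∣ n then (1 : ℝ) else 0) ≤
      ((ArithmeticFunction.moebius n : ℤ) : ℝ) ^ 2 := by
    intro n hn
    by_cases hs : Squarefree n
    · have h2 : ((ArithmeticFunction.moebius n : ℤ) : ℝ) ^ 2 = 1 := by
        have := ArithmeticFunction.moebius_sq_eq_one_of_squarefree hs
        exact_mod_cast this
      rw [h2]
      have : 0 ≤ ∑ d ∈ Icc 2 N, (if d ^ 2 ∣ n then (1 : ℝ) else 0) :=
        sum_nonneg fun _ _ => by split_ifs <;> norm_num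
      linarith
    · have hex : ∃ d ∈ Icc 2 N, d ^ 2 ∣ n := by
        rw [Nat.squarefree_iff_prime_squarefree] at hs
        push Not at hs
        obtain ⟨p, hp, hpn⟩ := hs
        have hn1 := (mem_Icc.1 hn)
        refine ⟨p, mem_Icc.2 ⟨hp.two_le, ?_⟩, by rw [sq]; exact hpn⟩
        have := Nat.le_of_dvd (by omega) hpn
        have h3 : p ≤ p * p := Nat.le_mul_self p
        omega
      obtain ⟨d, hd, hdn⟩ := hex
      have h3 : (1 : ℝ) ≤ ∑ d ∈ Icc 2 N, (if d ^ 2 ∣ n then (1 : ℝ) else 0) := by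
        refine le_trans (le_of_eq ?_) (single_le_sum (f := fun d => if d ^ 2 ∣ n then (1 : ℝ) else 0)
          (fun _ _ => by split_ifs <;> norm_num) hd)
        rw [if_pos hdn]
      have : 0 ≤ ((ArithmeticFunction.moebius n : ℤ) : ℝ) ^ 2 := sq_nonneg _
      linarith
  have h2 := sum_le_sum h1
  rw [sum_sub_distrib, sum_const, Nat.card_Icc, nsmul_eq_mul, mul_one, Nat.add_sub_cancel, sum_comm] at h2
  have h3 : ∀ d ∈ Icc 2 N, ∑ n ∈ Icc 1 N, (if d ^ 2 ∣ n then (1 : ℝ) else 0) ≤ N * (1 / (d : ℝ) ^ 2) := by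
    intro d hd
    have hd2 : 2 ≤ d := (mem_Icc.1 hd).1
    have h4 : ∑ n ∈ Icc 1 N, (if d ^ 2 ∣ n then (1 : ℝ) else 0) = ((N / d ^ 2 : ℕ) : ℝ) := by
      rw [← sum_filter, sum_const, nsmul_eq_mul, mul_one]
      congr 1
      have h5 : (Icc 1 N).filter (fun n => d ^ 2 ∣ n) = (Ioc 0 N).filter (fun n => d ^ 2 ∣ n) := by
        congr 1
      rw [h5, Nat.Ioc_filter_dvd_card_eq_div]
    rw [h4]
    calc ((N / d ^ 2 : ℕ) : ℝ) ≤ (N : ℝ) / ((d ^ 2 : ℕ) : ℝ) := Nat.cast_div_le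
      _ = N * (1 / (d : ℝ) ^ 2) := by push_cast; ring
  have h4 : ∀ K : ℕ, 2 ≤ K → ∑ d ∈ Icc 2 K, (1 : ℝ) / (d : ℝ) ^ 2 ≤ 3 / 4 - 1 / K := by
    intro K hK
    induction K, hK using Nat.le_induction with
    | base => norm_num
    | succ K hK ih =>
      rw [sum_Icc_succ_top (by omega)]
      have hK0 : (2 : ℝ) ≤ K := by exact_mod_cast hK
      have h5 : (1 : ℝ) / ((K + 1 : ℕ) : ℝ) ^ 2 ≤ 1 / K - 1 / ((K + 1 : ℕ) : ℝ) := by
        push_cast
        rw [div_sub_div _ _ (by positivity) (by positivity), div_le_div_iff₀ (by positivity) (by positivity)]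
        nlinarith
      linarith
  have h5 : ∑ d ∈ Icc 2 N, (1 : ℝ) / (d : ℝ) ^ 2 ≤ 3 / 4 := by
    rcases le_or_gt 2 N with hN | hN
    · have := h4 N hN
      have h6 : (0 : ℝ) ≤ 1 / N := by positivity
      linarith
    · rw [Icc_eq_empty (by omega)]
      norm_num
  have h6 : ∑ d ∈ Icc 2 N, ∑ n ∈ Icc 1 N, (if d ^ 2 ∣ n then (1 : ℝ) else 0) ≤ N * (3 / 4) := by
    refine (sum_le_sum h3).trans ?_
    rw [← mul_sum]
    exact mul_le_mul_of_nonneg_left h5 (Nat.cast_nonneg _)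
  linarith

end

end Pool.Agent.N237.MD
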