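import Pool.Agent.N237.MD.Slow

set_option autoImplicit false

/-! # Approximation through matrix algebras -/

namespace Pool.Agent.N237.MD

open Finset Filter Topology

noncomputable section

universe u v

/-- the operators on `ℂᵏ` -/
abbrev Mk (k : ℕ) : Type := EuclideanSpace ℂ (Fin k) →L[ℂ] EuclideanSpace ℂ (Fin k)

/-- the columns -/
def hs (k : ℕ) (T : Mk k) : PiLp 2 (fun _ : Fin k => EuclideanSpace ℂ (Fin k)) :=
  WithLp.toLp 2 fun i => T (EuclideanSpace.single i 1)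

lemma hs_sum (k : ℕ) (s : Finset ℕ) (v : ℕ → ℂ) (T : ℕ → Mk k) :
    hs k (∑ h ∈ s, v h • T h) = ∑ h ∈ s, v h • hs k (T h) := by
  have h0 : hs k (0 : Mk k) = 0 := by
    ext i j
    simp [hs]
  have h1 : ∀ A B : Mk k, hs k (A + B) = hs k A + hs k B := by
    intro A B
    ext i j
    simp [hs]
  have h2 : ∀ (c : ℂ) (A : Mk k), hs k (c • A) = c • hs k A := by
    intro c A
    ext i j
    simp [hs]
  classical
  induction s using Finset.induction_on with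
  | empty => simpa using h0
  | insert a s ha ih => rw [sum_insert ha, sum_insert ha, h1, h2, ih]

lemma hs_sq (k : ℕ) (T : Mk k) : ‖hs k T‖ ^ 2 = ∑ i, ‖T (EuclideanSpace.single i 1)‖ ^ 2 := by
  rw [PiLp.norm_sq_eq_of_L2]
  rfl

lemma hs_le (k : ℕ) (T : Mk k) : ‖hs k T‖ ^ 2 ≤ k * ‖T‖ ^ 2 := by
  rw [hs_sq]
  calc ∑ i : Fin k, ‖T (EuclideanSpace.single i 1)‖ ^ 2 ≤ ∑ _i : Fin k, ‖T‖ ^ 2 := by
        refine sum_le_sum fun i _ => ?_
        have h1 := T.le_opNorm (EuclideanSpace.single i (1 : ℂ))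
        rw [PiLp.norm_single, norm_one, mul_one] at h1
        exact pow_le_pow_left₀ (norm_nonneg _) h1 2
    _ = k * ‖T‖ ^ 2 := by simp

lemma le_hs (k : ℕ) (T : Mk k) : ‖T‖ ≤ ‖hs k T‖ := by
  refine T.opNorm_le_bound (norm_nonneg _) fun x => ?_
  have h1 : x = ∑ i, x i • EuclideanSpace.single i (1 : ℂ) := by
    have := (EuclideanSpace.basisFun (Fin k) ℂ).sum_repr x
    simpa using this.symm
  have h2 : T x = ∑ i, x i • T (EuclideanSpace.single i (1 : ℂ)) := by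
    conv_lhs => rw [h1]
    rw [map_sum]
    exact sum_congr rfl fun i _ => map_smul _ _ _
  have h3 : ‖T x‖ ≤ ∑ i, ‖x i‖ * ‖T (EuclideanSpace.single i (1 : ℂ))‖ := by
    rw [h2]
    refine (norm_sum_le _ _).trans (sum_le_sum fun i _ => ?_)
    rw [norm_smul]
  have h4 := Finset.sum_mul_sq_le_sq_mul_sq (univ : Finset (Fin k)) (fun i => ‖x i‖)
    (fun i => ‖T (EuclideanSpace.single i (1 : ℂ))‖)
  rw [← hs_sq, ← EuclideanSpace.norm_sq_eq] at h4
  have h5 : ‖T x‖ ^ 2 ≤ (‖hs k T‖ * ‖x‖) ^ 2 := by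
    calc ‖T x‖ ^ 2 ≤ (∑ i, ‖x i‖ * ‖T (EuclideanSpace.single i (1 : ℂ))‖) ^ 2 :=
          pow_le_pow_left₀ (norm_nonneg _) h3 2
      _ ≤ ‖x‖ ^ 2 * ‖hs k T‖ ^ 2 := h4
      _ = _ := by ring
  exact (abs_le_of_sq_le_sq' h5 (by positivity)).2

/-- approximation through matrix algebras of sublinear size, in the mean -/
theorem slow_of_rank {X : Type u} {Y : Type v} [NormedAddCommGroup X] [NormedSpace ℂ X] [NormedAddCommGroup Y]
    [NormedSpace ℂ Y] (T : X →L[ℂ] X) (hT : ‖T‖ ≤ 1) (p : X →L[ℂ] Y) (hp : ∀ x, ‖p x‖ = ‖x‖) (x : X)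
    (h : ∀ ε : ℝ, 0 < ε → ∃ n : ℕ, 1 ≤ n ∧ ∃ k : ℕ, (k : ℝ) ≤ ε * n ∧
      ∃ (φ : X →L[ℂ] Mk k) (ψ : Mk k →L[ℂ] Y), ‖φ‖ ≤ 1 ∧ ‖ψ‖ ≤ 1 ∧
        ∑ h ∈ range n, ‖ψ (φ ((T^[h]) x)) - p ((T^[h]) x)‖ ≤ ε * n) : SlowV T x := by
  intro η hη
  obtain ⟨n, hn, k, hk, φ, ψ, hφ, hψ, happ⟩ := h (min η (η ^ 2 / (‖x‖ ^ 2 + 1))) (by positivity)
  have hn0 : (0 : ℝ) < n := by exact_mod_cast hn
  refine ⟨n, hn, PiLp 2 (fun _ : Fin k => EuclideanSpace ℂ (Fin k)), inferInstance, inferInstance,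
    fun j => hs k (φ ((T^[j]) x)), ?_, ?_⟩
  · have h1 : ∀ j ∈ range n, ‖hs k (φ ((T^[j]) x))‖ ^ 2 ≤ k * ‖x‖ ^ 2 := by
      intro j _
      refine (hs_le k _).trans ?_
      have h2 : ‖φ ((T^[j]) x)‖ ≤ ‖x‖ := by
        refine (φ.le_opNorm _).trans ?_
        calc ‖φ‖ * ‖(T^[j]) x‖ ≤ 1 * ‖x‖ := mul_le_mul hφ (it_le hT j x) (norm_nonneg _) zero_le_one
          _ = ‖x‖ := one_mul _
      gcongr
    refine (sum_le_sum h1).trans ?_
    rw [sum_const, card_range, nsmul_eq_mul]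
    have h2 : (k : ℝ) * ‖x‖ ^ 2 ≤ η ^ 2 * n := by
      have h3 : (k : ℝ) ≤ η ^ 2 / (‖x‖ ^ 2 + 1) * n := by
        refine hk.trans ?_
        gcongr
        exact min_le_right _ _
      calc (k : ℝ) * ‖x‖ ^ 2 ≤ (η ^ 2 / (‖x‖ ^ 2 + 1) * n) * (‖x‖ ^ 2 + 1) := by
            apply mul_le_mul h3 (by linarith) (by positivity) (by positivity)
        _ = η ^ 2 * n := by field_simp
    calc (n : ℝ) * (k * ‖x‖ ^ 2) ≤ n * (η ^ 2 * n) := by gcongr
      _ = _ := by ring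
  · intro v hv
    have h1 : ‖∑ j ∈ range n, v j • (T^[j]) x‖ = ‖∑ j ∈ range n, v j • p ((T^[j]) x)‖ := by
      rw [← hp, map_sum]
      congr 1
      exact sum_congr rfl fun j _ => map_smul _ _ _
    have h2 : ∑ j ∈ range n, v j • p ((T^[j]) x) = ψ (φ (∑ j ∈ range n, v j • (T^[j]) x)) -
        ∑ j ∈ range n, v j • (ψ (φ ((T^[j]) x)) - p ((T^[j]) x)) := by
      rw [map_sum, map_sum, ← sum_sub_distrib]
      refine sum_congr rfl fun j _ => ?_
      rw [map_smul, map_smul, smul_sub, sub_sub_cancel]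
    rw [h1, h2]
    refine (norm_sub_le _ _).trans (add_le_add ?_ ?_)
    · calc ‖ψ (φ (∑ j ∈ range n, v j • (T^[j]) x))‖ ≤ ‖φ (∑ j ∈ range n, v j • (T^[j]) x)‖ := by
            refine (ψ.le_opNorm _).trans ?_
            calc ‖ψ‖ * _ ≤ 1 * _ := mul_le_mul_of_nonneg_right hψ (norm_nonneg _)
              _ = _ := one_mul _
        _ ≤ ‖hs k (φ (∑ j ∈ range n, v j • (T^[j]) x))‖ := le_hs k _
        _ = ‖∑ j ∈ range n, v j • hs k (φ ((T^[j]) x))‖ := by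
            rw [← hs_sum, map_sum]
            congr 2
            exact sum_congr rfl fun j _ => map_smul _ _ _
    · refine (norm_sum_le _ _).trans ?_
      calc ∑ j ∈ range n, ‖v j • (ψ (φ ((T^[j]) x)) - p ((T^[j]) x))‖ ≤
          ∑ j ∈ range n, ‖ψ (φ ((T^[j]) x)) - p ((T^[j]) x)‖ := by
            refine sum_le_sum fun j _ => ?_
            rw [norm_smul]
            calc ‖v j‖ * _ ≤ 1 * _ := mul_le_mul_of_nonneg_right (hv j) (norm_nonneg _)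
              _ = _ := one_mul _
        _ ≤ min η (η ^ 2 / (‖x‖ ^ 2 + 1)) * n := happ
        _ ≤ η * n := by
            gcongr
            exact min_le_left _ _

end

end Pool.Agent.N237.MD
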