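import Pool.Agent.R296.SM.Cyd

set_option autoImplicit false

/-! # Elements of small rank relative to the almost periodic subalgebra -/

namespace Pool.Agent.N237.MD

open Finset Filter Topology
open Pool.Agent.R296.SM

noncomputable section

universe u

section cs

variable {A : Type u} [CStarAlgebra A]

open scoped CStarAlgebra in
/-- the Cauchy-Schwarz inequality for rows and columns -/
lemma cs {ι : Type} [Fintype ι] (a b : ι → A) :
    ‖∑ i, a i * b i‖ ^ 2 ≤ ‖∑ i, a i * star (a i)‖ * ‖∑ i, star (b i) * b i‖ := by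
  letI : PartialOrder A := CStarAlgebra.spectralOrder A
  haveI : StarOrderedRing A := CStarAlgebra.spectralOrderedRing A
  let x : WithCStarModule A (Π _ : ι, A) := (WithCStarModule.equiv A (Π _ : ι, A)).symm fun i => star (b i)
  let y : WithCStarModule A (Π _ : ι, A) := (WithCStarModule.equiv A (Π _ : ι, A)).symm fun i => a i
  have h1 := CStarModule.norm_inner_le (A := A) (WithCStarModule A (Π _ : ι, A)) (x := x) (y := y)
  have hx : ‖x‖ ^ 2 = ‖∑ i, star (b i) * b i‖ := by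
    rw [WithCStarModule.pi_norm_sq]
    congr 1
    refine sum_congr rfl fun i _ => ?_
    show star (b i) * star (star (b i)) = _
    rw [star_star]
  have hy : ‖y‖ ^ 2 = ‖∑ i, a i * star (a i)‖ := by
    rw [WithCStarModule.pi_norm_sq]
    rfl
  have hxy : (inner A x y : A) = ∑ i, a i * b i := by
    rw [WithCStarModule.pi_inner]
    refine sum_congr rfl fun i _ => ?_
    show a i * star (star (b i)) = _
    rw [star_star]
  rw [hxy] at h1
  calc ‖∑ i, a i * b i‖ ^ 2 ≤ (‖x‖ * ‖y‖) ^ 2 := pow_le_pow_left₀ (norm_nonneg _) h1 2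
    _ = _ := by rw [mul_pow, hx, hy, mul_comm]

end cs

variable {A : Type u} [CStarAlgebra A] {α : A →⋆ₐ[ℂ] A} {E : Set ℕ} {f : ℕ → ℤ}

/-! ### the almost periodic subalgebra -/

lemma star_eig {c : A} (hc : c ∈ Eig α) : star c ∈ Eig α := by
  obtain ⟨l, hl, h⟩ := hc
  refine ⟨star l, by rw [norm_star, hl], ?_⟩
  rw [map_star, h, star_smul]

lemma span_star {q : A} (hq : q ∈ Submodule.span ℂ (Eig α)) : star q ∈ Submodule.span ℂ (Eig α) := by
  induction hq using Submodule.span_induction with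
  | mem x hx => exact Submodule.subset_span (star_eig hx)
  | zero => rw [star_zero]; exact Submodule.zero_mem _
  | add x y _ _ hx hy => rw [star_add]; exact Submodule.add_mem _ hx hy
  | smul c x _ hx => rw [star_smul]; exact Submodule.smul_mem _ _ hx

lemma span_ap {q : A} (hq : q ∈ Submodule.span ℂ (Eig α)) : q ∈ APs α := by
  refine Subalgebra.le_topologicalClosure _ ?_
  have h1 : Submodule.span ℂ (Eig α) ≤ Subalgebra.toSubmodule (Algebra.adjoin ℂ (Eig α)) :=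
    Submodule.span_le.2 Algebra.subset_adjoin
  exact h1 hq

lemma ap_near {p : A} (hp : p ∈ APs α) {δ : ℝ} (hδ : 0 < δ) :
    ∃ q ∈ Submodule.span ℂ (Eig α), ‖p - q‖ ≤ δ := by
  obtain ⟨q, hq, hpq⟩ := Metric.mem_closure_iff.1 (show p ∈ closure (Algebra.adjoin ℂ (Eig α) : Set A) from hp) δ hδ
  exact ⟨q, adjoin_eig α hq, by rw [← dist_eq_norm]; exact hpq.le⟩

lemma star_ap {p : A} (hp : p ∈ APs α) : star p ∈ APs α := by
  have h1 : star p ∈ closure (Algebra.adjoin ℂ (Eig α) : Set A) := by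
    rw [Metric.mem_closure_iff]
    intro ε hε
    obtain ⟨q, hq, hpq⟩ := ap_near hp (half_pos hε)
    refine ⟨star q, ?_, ?_⟩
    · have h1 : Submodule.span ℂ (Eig α) ≤ Subalgebra.toSubmodule (Algebra.adjoin ℂ (Eig α)) :=
        Submodule.span_le.2 Algebra.subset_adjoin
      exact h1 (span_star hq)
    · rw [dist_eq_norm, ← star_sub, norm_star]
      linarith
  exact h1

/-- the powers of `α` are surjective on the span of the eigenvectors -/
lemma span_pow {q : A} (hq : q ∈ Submodule.span ℂ (Eig α)) (h : ℕ) :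
    ∃ r ∈ Submodule.span ℂ (Eig α), (α ^ h) r = q := by
  induction hq using Submodule.span_induction with
  | mem x hx =>
    obtain ⟨l, hl, hx'⟩ := hx
    have hl0 : l ≠ 0 := by
      intro h0
      rw [h0, norm_zero] at hl
      exact zero_ne_one hl
    refine ⟨(l ^ h)⁻¹ • x, Submodule.smul_mem _ _ (Submodule.subset_span ⟨l, hl, hx'⟩), ?_⟩
    rw [map_smul, pow_eig α hx', smul_smul, inv_mul_cancel₀ (pow_ne_zero _ hl0), one_smul]
  | zero => exact ⟨0, Submodule.zero_mem _, map_zero _⟩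
  | add x y _ _ hx hy =>
    obtain ⟨r, hr, e⟩ := hx
    obtain ⟨s, hs, e'⟩ := hy
    exact ⟨r + s, Submodule.add_mem _ hr hs, by rw [map_add, e, e']⟩
  | smul c x _ hx =>
    obtain ⟨r, hr, e⟩ := hx
    exact ⟨c • r, Submodule.smul_mem _ _ hr, by rw [map_smul, e]⟩

lemma ff_le (hf : ∀ n, |f n| ≤ 1) (n m : ℕ) : ‖((f n : ℂ) * f m)‖ ≤ 1 := by
  rw [norm_mul]
  calc ‖(f n : ℂ)‖ * ‖(f m : ℂ)‖ ≤ 1 * 1 := mul_le_mul (norm_f hf _) (norm_f hf _) (norm_nonneg _) zero_le_one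
    _ = 1 := one_mul 1

/-- shifted correlations -/
lemma kil_lt (hf : ∀ n, |f n| ≤ 1) (hw : Wt E f) {p : A} (hp : p ∈ APs α) (h k : ℕ) (hk : 1 ≤ k) (ε : ℝ)
    (hε : 0 < ε) : ∃ N₀ : ℕ, ∀ N : ℕ, N₀ ≤ N → N ∉ E →
      ‖∑ n ∈ Icc 1 N, ((f (n + h) : ℂ) * f (n + (h + k))) • (α ^ n) p‖ ≤ ε * N := by
  obtain ⟨q, hq, hpq⟩ := ap_near hp (show 0 < ε / 4 by positivity)
  obtain ⟨r, hr, hrq⟩ := span_pow hq h
  obtain ⟨N₁, h1⟩ := Kil.ap hf hw (span_ap hr) k hk (ε / 4) (by positivity)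
  obtain ⟨B, hB⟩ := exists_nat_ge ((2 * h + 2) * ‖r‖ / (ε / 4))
  refine ⟨max N₁ (max B 1), fun N hN hNE => ?_⟩
  have hN1 : N₁ ≤ N := le_trans (le_max_left _ _) hN
  have hN2 : B ≤ N := le_trans (le_max_left _ _) (le_trans (le_max_right _ _) hN)
  have hN3 : 1 ≤ N := le_trans (le_max_right _ _) (le_trans (le_max_right _ _) hN)
  have hB' : (2 * h + 2) * ‖r‖ ≤ ε / 4 * N := by
    have : (2 * h + 2) * ‖r‖ / (ε / 4) ≤ N := hB.trans (Nat.cast_le.2 hN2)
    rw [div_le_iff₀ (by positivity)] at this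
    linarith
  have e1 : ∑ n ∈ Icc 1 N, ((f (n + h) : ℂ) * f (n + (h + k))) • (α ^ n) p =
      ∑ n ∈ Icc 1 N, ((f (n + h) : ℂ) * f (n + (h + k))) • (α ^ n) (p - q) +
      ∑ n ∈ Icc 1 N, ((f (n + h) : ℂ) * f (n + h + k)) • (α ^ (n + h)) r := by
    rw [← sum_add_distrib]
    refine sum_congr rfl fun n _ => ?_
    rw [pow_add_apply, hrq, add_assoc n h k, ← smul_add, ← map_add, sub_add_cancel]
  have e2 : ‖∑ n ∈ Icc 1 N, ((f (n + h) : ℂ) * f (n + (h + k))) • (α ^ n) (p - q)‖ ≤ N * (ε / 4) := by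
    refine (norm_sum_le _ _).trans ?_
    calc _ ≤ ∑ _n ∈ Icc 1 N, ε / 4 := by
          refine sum_le_sum fun n _ => ?_
          rw [norm_smul]
          calc _ ≤ 1 * (ε / 4) := mul_le_mul (ff_le hf _ _) ((norm_pow_le' α n _).trans hpq) (norm_nonneg _) zero_le_one
            _ = ε / 4 := one_mul _
      _ = _ := by rw [sum_const, Nat.card_Icc, Nat.add_sub_cancel, nsmul_eq_mul]
  have e3 : ∑ n ∈ Icc 1 N, ((f (n + h) : ℂ) * f (n + h + k)) • (α ^ (n + h)) r =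
      ∑ m ∈ Ico (1 + h) (N + 1 + h), ((f m : ℂ) * f (m + k)) • (α ^ m) r := by
    rw [← sum_Ico_add' (fun m : ℕ => ((f m : ℂ) * f (m + k)) • (α ^ m) r) 1 (N + 1) h]
    rfl
  have e4 : ‖∑ m ∈ Ico (1 + h) (N + 1 + h), ((f m : ℂ) * f (m + k)) • (α ^ m) r -
      ∑ m ∈ range N, ((f m : ℂ) * f (m + k)) • (α ^ m) r‖ ≤ (2 * h + 2) * ‖r‖ := by
    have hterm : ∀ m, ‖((f m : ℂ) * f (m + k)) • (α ^ m) r‖ ≤ ‖r‖ := by
      intro m
      rw [norm_smul]
      calc _ ≤ 1 * ‖r‖ := mul_le_mul (ff_le hf _ _) (norm_pow_le' α m _) (norm_nonneg _) zero_le_one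
        _ = ‖r‖ := one_mul _
    have h2 : ∑ m ∈ range (N + 1 + h), ((f m : ℂ) * f (m + k)) • (α ^ m) r =
        ∑ m ∈ range (1 + h), ((f m : ℂ) * f (m + k)) • (α ^ m) r +
        ∑ m ∈ Ico (1 + h) (N + 1 + h), ((f m : ℂ) * f (m + k)) • (α ^ m) r :=
      (sum_range_add_sum_Ico _ (by omega)).symm
    have h3 : ∑ m ∈ range (N + 1 + h), ((f m : ℂ) * f (m + k)) • (α ^ m) r =
        ∑ m ∈ range N, ((f m : ℂ) * f (m + k)) • (α ^ m) r +
        ∑ m ∈ Ico N (N + 1 + h), ((f m : ℂ) * f (m + k)) • (α ^ m) r :=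
      (sum_range_add_sum_Ico _ (by omega)).symm
    have h4 : ∑ m ∈ Ico (1 + h) (N + 1 + h), ((f m : ℂ) * f (m + k)) • (α ^ m) r -
        ∑ m ∈ range N, ((f m : ℂ) * f (m + k)) • (α ^ m) r =
        ∑ m ∈ Ico N (N + 1 + h), ((f m : ℂ) * f (m + k)) • (α ^ m) r -
        ∑ m ∈ range (1 + h), ((f m : ℂ) * f (m + k)) • (α ^ m) r := by
      have h5 := h2.symm.trans h3
      rw [sub_eq_sub_iff_add_eq_add]
      rw [add_comm, h5, add_comm]
    rw [h4]
    refine (norm_sub_le _ _).trans ?_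
    have h6 : ‖∑ m ∈ Ico N (N + 1 + h), ((f m : ℂ) * f (m + k)) • (α ^ m) r‖ ≤ (h + 1) * ‖r‖ := by
      refine (norm_sum_le _ _).trans ((sum_le_sum fun m _ => hterm m).trans ?_)
      rw [sum_const, Nat.card_Ico, nsmul_eq_mul, show N + 1 + h - N = h + 1 by omega]
      push_cast
      exact le_refl _
    have h7 : ‖∑ m ∈ range (1 + h), ((f m : ℂ) * f (m + k)) • (α ^ m) r‖ ≤ (h + 1) * ‖r‖ := by
      refine (norm_sum_le _ _).trans ((sum_le_sum fun m _ => hterm m).trans ?_)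
      rw [sum_const, card_range, nsmul_eq_mul]
      push_cast
      exact le_of_eq (by ring)
    linarith
  have e5 := h1 N hN1 hNE
  rw [e1, e3]
  have e6 : ∑ m ∈ Ico (1 + h) (N + 1 + h), ((f m : ℂ) * f (m + k)) • (α ^ m) r =
      (∑ m ∈ Ico (1 + h) (N + 1 + h), ((f m : ℂ) * f (m + k)) • (α ^ m) r -
      ∑ m ∈ range N, ((f m : ℂ) * f (m + k)) • (α ^ m) r) + ∑ m ∈ range N, ((f m : ℂ) * f (m + k)) • (α ^ m) r :=
    (sub_add_cancel _ _).symm
  rw [e6]
  have e7 := norm_add_le (∑ n ∈ Icc 1 N, ((f (n + h) : ℂ) * f (n + (h + k))) • (α ^ n) (p - q))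
    ((∑ m ∈ Ico (1 + h) (N + 1 + h), ((f m : ℂ) * f (m + k)) • (α ^ m) r -
      ∑ m ∈ range N, ((f m : ℂ) * f (m + k)) • (α ^ m) r) + ∑ m ∈ range N, ((f m : ℂ) * f (m + k)) • (α ^ m) r)
  have e8 := norm_add_le (∑ m ∈ Ico (1 + h) (N + 1 + h), ((f m : ℂ) * f (m + k)) • (α ^ m) r -
      ∑ m ∈ range N, ((f m : ℂ) * f (m + k)) • (α ^ m) r) (∑ m ∈ range N, ((f m : ℂ) * f (m + k)) • (α ^ m) r)
  have : (0 : ℝ) ≤ N := Nat.cast_nonneg _
  nlinarith

lemma kil_ne (hf : ∀ n, |f n| ≤ 1) (hw : Wt E f) {p : A} (hp : p ∈ APs α) (h h' : ℕ) (hne : h ≠ h') (ε : ℝ)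
    (hε : 0 < ε) : ∃ N₀ : ℕ, ∀ N : ℕ, N₀ ≤ N → N ∉ E →
      ‖∑ n ∈ Icc 1 N, ((f (n + h) : ℂ) * f (n + h')) • (α ^ n) p‖ ≤ ε * N := by
  rcases lt_or_gt_of_ne hne with hlt | hlt
  · obtain ⟨k, rfl⟩ := Nat.exists_eq_add_of_lt hlt
    exact kil_lt hf hw hp h (k + 1) (by omega) ε hε
  · obtain ⟨k, rfl⟩ := Nat.exists_eq_add_of_lt hlt
    obtain ⟨N₀, h1⟩ := kil_lt hf hw hp h' (k + 1) (by omega) ε hε
    refine ⟨N₀, fun N hN hNE => le_trans (le_of_eq ?_) (h1 N hN hNE)⟩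
    congr 1
    refine sum_congr rfl fun n _ => ?_
    rw [mul_comm]
    rfl

/-! ### windows -/

lemma shift_le {G : Type*} [NormedAddCommGroup G] (F : ℕ → G) (B : ℝ) (hF : ∀ m, ‖F m‖ ≤ B) (N h : ℕ) :
    ‖∑ m ∈ Icc 1 N, F m - ∑ n ∈ Icc 1 N, F (n + h)‖ ≤ 2 * h * B := by
  induction h with
  | zero => simp
  | succ h ih =>
    have h1 : ∀ M : ℕ, ∑ n ∈ Icc 1 M, F (n + h) - ∑ n ∈ Icc 1 M, F (n + (h + 1)) = F (1 + h) - F (M + 1 + h) := by
      intro M
      induction M with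
      | zero => simp
      | succ M ihM =>
        rw [sum_Icc_succ_top (by omega), sum_Icc_succ_top (by omega), add_sub_add_comm, ihM,
          show M + 1 + (h + 1) = M + 1 + 1 + h by ring]
        abel
    have h2 : ∑ m ∈ Icc 1 N, F m - ∑ n ∈ Icc 1 N, F (n + (h + 1)) =
        (∑ m ∈ Icc 1 N, F m - ∑ n ∈ Icc 1 N, F (n + h)) + (F (1 + h) - F (N + 1 + h)) := by
      rw [← h1 N]; abel
    rw [h2]
    have h3 := norm_add_le (∑ m ∈ Icc 1 N, F m - ∑ n ∈ Icc 1 N, F (n + h)) (F (1 + h) - F (N + 1 + h))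
    have h4 := norm_sub_le (F (1 + h)) (F (N + 1 + h))
    have h5 := hF (1 + h)
    have h6 := hF (N + 1 + h)
    push_cast
    linarith

lemma cs_prod {k : ℕ} (s : Finset ℕ) (a b : ℕ → Fin k → A) :
    ‖∑ n ∈ s, ∑ j, a n j * b n j‖ ^ 2 ≤
      ‖∑ n ∈ s, ∑ j, a n j * star (a n j)‖ * ‖∑ n ∈ s, ∑ j, star (b n j) * b n j‖ := by
  have h1 := cs (fun i : s × Fin k => a i.1 i.2) (fun i : s × Fin k => b i.1 i.2)
  have h2 : ∀ F : ℕ → Fin k → A, ∑ i : s × Fin k, F i.1 i.2 = ∑ n ∈ s, ∑ j, F n j := by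
    intro F
    rw [Fintype.sum_prod_type]
    exact sum_coe_sort s (fun n => ∑ j, F n j)
  rw [h2 (fun n j => a n j * b n j), h2 (fun n j => a n j * star (a n j)),
    h2 (fun n j => star (b n j) * b n j)] at h1
  exact h1

lemma tws_split (f : ℕ → ℤ) (θ : UnitAddCircle) (n h : ℕ) :
    tws f θ (n + h) = (f (n + h) : ℂ) * (fourier (n : ℤ) θ * fourier (h : ℤ) θ) := by
  unfold tws
  rw [← fourier_add]
  push_cast
  rfl

lemma norm_four (n : ℤ) (θ : UnitAddCircle) : ‖(fourier n θ : ℂ)‖ = 1 := by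
  rw [fourier_apply, Circle.norm_coe]

lemma tws_star (f : ℕ → ℤ) (θ : UnitAddCircle) (n h h' : ℕ) :
    tws f θ (n + h) * star (tws f θ (n + h')) =
      (fourier (h : ℤ) θ * star (fourier (h' : ℤ) θ)) * ((f (n + h) : ℂ) * f (n + h')) := by
  have h1 : (fourier (n : ℤ) θ : ℂ) * star (fourier (n : ℤ) θ) = 1 := by
    have := Complex.mul_conj (fourier (n : ℤ) θ : ℂ)
    rw [Complex.normSq_eq_norm_sq, norm_four] at this
    simpa using this
  rw [tws_split, tws_split, star_mul, star_mul]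
  have h2 : star ((f (n + h') : ℤ) : ℂ) = (f (n + h') : ℂ) := by simp
  rw [h2]
  calc _ = (fourier (n : ℤ) θ : ℂ) * star (fourier (n : ℤ) θ) *
        ((fourier (h : ℤ) θ * star (fourier (h' : ℤ) θ)) * ((f (n + h) : ℂ) * f (n + h'))) := by ring
    _ = _ := by rw [h1, one_mul]

/-- the diagonal terms -/
lemma diag_le (hf : ∀ n, |f n| ≤ 1) {L k : ℕ} (p : Fin k → ℕ → A) {K : ℝ}
    (hp1 : ‖∑ h ∈ range L, ∑ j, p j h * star (p j h)‖ ≤ K) (n : ℕ) :
    ‖∑ h ∈ range L, ((f (n + h) : ℂ) * f (n + h)) • (α ^ n) (∑ j, p j h * star (p j h))‖ ≤ K := by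
  letI : PartialOrder A := CStarAlgebra.spectralOrder A
  haveI : StarOrderedRing A := CStarAlgebra.spectralOrderedRing A
  have h1 : ∑ h ∈ range L, ((f (n + h) : ℂ) * f (n + h)) • (α ^ n) (∑ j, p j h * star (p j h)) =
      (α ^ n) (∑ h ∈ range L, ((f (n + h) : ℂ) * f (n + h)) • (∑ j, p j h * star (p j h))) := by
    rw [map_sum]
    exact sum_congr rfl fun h _ => (map_smul _ _ _).symm
  rw [h1]
  refine (norm_pow_le' α n _).trans (le_trans ?_ hp1)
  have h0 : ∀ h, (0 : A) ≤ ∑ j, p j h * star (p j h) := fun h => sum_nonneg fun j _ => mul_star_self_nonneg _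
  have h2 : ∀ h, ((f (n + h) : ℂ) * f (n + h)) • (∑ j, p j h * star (p j h)) = 0 ∨
      ((f (n + h) : ℂ) * f (n + h)) • (∑ j, p j h * star (p j h)) = ∑ j, p j h * star (p j h) := by
    intro h
    have h3 := hf (n + h)
    have h4 : f (n + h) = 0 ∨ f (n + h) = 1 ∨ f (n + h) = -1 := by
      rw [abs_le] at h3
      omega
    rcases h4 with h4 | h4 | h4
    · left; rw [h4]; simp
    · right; rw [h4]; simp
    · right; rw [h4]; simp
  refine CStarAlgebra.norm_le_norm_of_nonneg_of_le (sum_nonneg fun h _ => ?_) (sum_le_sum fun h _ => ?_)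
  · rcases h2 h with h3 | h3
    · rw [h3]
    · rw [h3]; exact h0 h
  · rcases h2 h with h3 | h3
    · rw [h3]; exact h0 h
    · rw [h3]

/-- **the estimate** -/
theorem rel_small (hf : ∀ n, |f n| ≤ 1) (hw : Wt E f) {x : A} {η : ℝ} (hη : 0 < η) {L k : ℕ} (hL : 1 ≤ L)
    (w : Fin k → A) (p : Fin k → ℕ → A) (hp : ∀ j h, p j h ∈ APs α) (hw1 : ‖∑ j, star (w j) * w j‖ ≤ 1)
    (hp1 : ‖∑ h ∈ range L, ∑ j, p j h * star (p j h)‖ ≤ (η * L) ^ 2)
    (happ : ∑ h ∈ range L, ‖(α ^ h) x - ∑ j, p j h * w j‖ ≤ η * L) :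
    ∃ N₀ : ℕ, ∀ N : ℕ, N₀ ≤ N → N ∉ E → ∀ θ : UnitAddCircle,
      ‖∑ m ∈ Icc 1 N, tws f θ m • (α ^ m) x‖ ≤ 4 * η * N := by
  have hL0 : (0 : ℝ) < L := by exact_mod_cast hL
  have hQ : ∀ h h', ∑ j, p j h * star (p j h') ∈ APs α := fun h h' =>
    Subalgebra.sum_mem _ fun j _ => Subalgebra.mul_mem _ (hp j h) (star_ap (hp j h'))
  have hk : ∀ h h' : ℕ, ∃ N₀ : ℕ, h ≠ h' → ∀ N : ℕ, N₀ ≤ N → N ∉ E →
      ‖∑ n ∈ Icc 1 N, ((f (n + h) : ℂ) * f (n + h')) • (α ^ n) (∑ j, p j h * star (p j h'))‖ ≤ η ^ 2 * N := by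
    intro h h'
    by_cases hne : h = h'
    · exact ⟨0, fun h => absurd hne h⟩
    · obtain ⟨N₀, h1⟩ := kil_ne hf hw (hQ h h') h h' hne (η ^ 2) (by positivity)
      exact ⟨N₀, fun _ => h1⟩
  choose N₁ hN₁ using hk
  obtain ⟨B, hB⟩ := exists_nat_ge (4 * L * ‖x‖ / η)
  refine ⟨(∑ h ∈ range L, ∑ h' ∈ range L, N₁ h h') + B, fun N hN hNE θ => ?_⟩
  have hN1 : ∀ h ∈ range L, ∀ h' ∈ range L, N₁ h h' ≤ N := by
    intro h hh h' hh'
    have h2 : N₁ h h' ≤ ∑ h' ∈ range L, N₁ h h' :=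
      single_le_sum (f := fun h' => N₁ h h') (fun _ _ => Nat.zero_le _) hh'
    have h3 : ∑ h' ∈ range L, N₁ h h' ≤ ∑ h ∈ range L, ∑ h' ∈ range L, N₁ h h' :=
      single_le_sum (f := fun h => ∑ h' ∈ range L, N₁ h h') (fun _ _ => Nat.zero_le _) hh
    omega
  have hNB : 4 * L * ‖x‖ ≤ η * N := by
    have h2 : 4 * L * ‖x‖ / η ≤ N := hB.trans (Nat.cast_le.2 (by omega))
    rw [div_le_iff₀ hη] at h2
    linarith
  have hN0 : (0 : ℝ) ≤ N := Nat.cast_nonneg _
  set S := ∑ m ∈ Icc 1 N, tws f θ m • (α ^ m) x with hS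
  set r : ℕ → A := fun h => (α ^ h) x - ∑ j, p j h * w j with hr
  set a : ℕ → Fin k → A := fun n j => ∑ h ∈ range L, tws f θ (n + h) • (α ^ n) (p j h) with ha
  set b : ℕ → Fin k → A := fun n j => (α ^ n) (w j) with hb
  -- the windows
  have e1 : (L : ℂ) • S = (∑ h ∈ range L, (S - ∑ n ∈ Icc 1 N, tws f θ (n + h) • (α ^ (n + h)) x)) +
      (∑ n ∈ Icc 1 N, ∑ h ∈ range L, tws f θ (n + h) • (α ^ n) (r h)) + ∑ n ∈ Icc 1 N, ∑ j, a n j * b n j := by
    have h1 : ∑ n ∈ Icc 1 N, ∑ j, a n j * b n j =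
        ∑ n ∈ Icc 1 N, ∑ h ∈ range L, tws f θ (n + h) • (α ^ n) (∑ j, p j h * w j) := by
      refine sum_congr rfl fun n _ => ?_
      simp only [ha, hb, sum_mul]
      rw [sum_comm]
      refine sum_congr rfl fun h _ => ?_
      rw [map_sum, smul_sum]
      refine sum_congr rfl fun j _ => ?_
      rw [map_mul, smul_mul_assoc]
    have h2 : ∑ h ∈ range L, ∑ n ∈ Icc 1 N, tws f θ (n + h) • (α ^ (n + h)) x =
        (∑ n ∈ Icc 1 N, ∑ h ∈ range L, tws f θ (n + h) • (α ^ n) (r h)) +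
        ∑ n ∈ Icc 1 N, ∑ h ∈ range L, tws f θ (n + h) • (α ^ n) (∑ j, p j h * w j) := by
      rw [sum_comm, ← sum_add_distrib]
      refine sum_congr rfl fun n _ => ?_
      rw [← sum_add_distrib]
      refine sum_congr rfl fun h _ => ?_
      rw [← smul_add, ← map_add, hr]
      simp only
      rw [sub_add_cancel, pow_add_apply]
    rw [h1, sum_sub_distrib, h2, sum_const, card_range, add_assoc, sub_add_cancel]
    rw [← Nat.cast_smul_eq_nsmul ℂ]
  have e2 : ‖∑ h ∈ range L, (S - ∑ n ∈ Icc 1 N, tws f θ (n + h) • (α ^ (n + h)) x)‖ ≤ L * (2 * L * ‖x‖) := by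
    refine (norm_sum_le _ _).trans ?_
    calc _ ≤ ∑ _h ∈ range L, 2 * L * ‖x‖ := by
          refine sum_le_sum fun h hh => ?_
          refine (shift_le (fun m => tws f θ m • (α ^ m) x) ‖x‖ (fun m => ?_) N h).trans ?_
          · rw [norm_smul]
            calc _ ≤ 1 * ‖x‖ := mul_le_mul (norm_tws hf θ m) (norm_pow_le' α m _) (norm_nonneg _) zero_le_one
              _ = ‖x‖ := one_mul _
          · have : (h : ℝ) ≤ L := by exact_mod_cast (mem_range.1 hh).le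
            gcongr
      _ = _ := by rw [sum_const, card_range, nsmul_eq_mul]
  have e3 : ‖∑ n ∈ Icc 1 N, ∑ h ∈ range L, tws f θ (n + h) • (α ^ n) (r h)‖ ≤ N * (η * L) := by
    refine (norm_sum_le _ _).trans ?_
    calc _ ≤ ∑ _n ∈ Icc 1 N, η * L := by
          refine sum_le_sum fun n _ => ?_
          refine (norm_sum_le _ _).trans (le_trans (sum_le_sum fun h _ => ?_) happ)
          rw [norm_smul]
          calc _ ≤ 1 * ‖r h‖ := mul_le_mul (norm_tws hf θ _) (norm_pow_le' α n _) (norm_nonneg _) zero_le_one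
            _ = _ := one_mul _
      _ = _ := by rw [sum_const, Nat.card_Icc, Nat.add_sub_cancel, nsmul_eq_mul]
  have e4 : ‖∑ n ∈ Icc 1 N, ∑ j, star (b n j) * b n j‖ ≤ N := by
    refine (norm_sum_le _ _).trans ?_
    calc _ ≤ ∑ _n ∈ Icc 1 N, (1 : ℝ) := by
          refine sum_le_sum fun n _ => ?_
          have : ∑ j, star (b n j) * b n j = (α ^ n) (∑ j, star (w j) * w j) := by
            rw [map_sum]
            refine sum_congr rfl fun j _ => ?_
            rw [map_mul, map_star]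
          rw [this]
          exact (norm_pow_le' α n _).trans hw1
      _ = N := by rw [sum_const, Nat.card_Icc, Nat.add_sub_cancel, nsmul_eq_mul, mul_one]
  -- the correlations
  have e5 : ∑ n ∈ Icc 1 N, ∑ j, a n j * star (a n j) = ∑ h ∈ range L, ∑ h' ∈ range L,
      (fourier (h : ℤ) θ * star (fourier (h' : ℤ) θ) : ℂ) •
        ∑ n ∈ Icc 1 N, ((f (n + h) : ℂ) * f (n + h')) • (α ^ n) (∑ j, p j h * star (p j h')) := by
    have h1 : ∀ n, ∑ j, a n j * star (a n j) = ∑ h ∈ range L, ∑ h' ∈ range L,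
        (fourier (h : ℤ) θ * star (fourier (h' : ℤ) θ) : ℂ) •
          (((f (n + h) : ℂ) * f (n + h')) • (α ^ n) (∑ j, p j h * star (p j h'))) := by
      intro n
      have h2 : ∀ j, a n j * star (a n j) = ∑ h ∈ range L, ∑ h' ∈ range L,
          (tws f θ (n + h) * star (tws f θ (n + h'))) • (α ^ n) (p j h * star (p j h')) := by
        intro j
        simp only [ha, star_sum, sum_mul_sum, star_smul]
        refine sum_congr rfl fun h _ => sum_congr rfl fun h' _ => ?_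
        rw [smul_mul_smul_comm, map_mul, map_star]
      simp_rw [h2]
      rw [sum_comm]
      refine sum_congr rfl fun h _ => ?_
      rw [sum_comm]
      refine sum_congr rfl fun h' _ => ?_
      rw [← smul_sum, ← map_sum, tws_star, mul_smul]
    simp_rw [h1]
    rw [sum_comm]
    refine sum_congr rfl fun h _ => ?_
    rw [sum_comm]
    refine sum_congr rfl fun h' _ => ?_
    rw [smul_sum]
  have hnf : ∀ h h' : ℕ, ‖(fourier (h : ℤ) θ * star (fourier (h' : ℤ) θ) : ℂ)‖ = 1 := by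
    intro h h'
    rw [norm_mul, norm_star, norm_four, norm_four, one_mul]
  have e6 : ‖∑ n ∈ Icc 1 N, ∑ j, a n j * star (a n j)‖ ≤ N * (η * L) ^ 2 + L * (L * (η ^ 2 * N)) := by
    rw [e5]
    have h1 : ∀ h ∈ range L, ∑ h' ∈ range L, (fourier (h : ℤ) θ * star (fourier (h' : ℤ) θ) : ℂ) •
        ∑ n ∈ Icc 1 N, ((f (n + h) : ℂ) * f (n + h')) • (α ^ n) (∑ j, p j h * star (p j h')) =
        (∑ n ∈ Icc 1 N, ((f (n + h) : ℂ) * f (n + h)) • (α ^ n) (∑ j, p j h * star (p j h))) +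
        ∑ h' ∈ (range L).erase h, (fourier (h : ℤ) θ * star (fourier (h' : ℤ) θ) : ℂ) •
        ∑ n ∈ Icc 1 N, ((f (n + h) : ℂ) * f (n + h')) • (α ^ n) (∑ j, p j h * star (p j h')) := by
      intro h hh
      rw [← add_sum_erase _ _ hh]
      congr 1
      have h2 : (fourier (h : ℤ) θ * star (fourier (h : ℤ) θ) : ℂ) = 1 := by
        have := Complex.mul_conj (fourier (h : ℤ) θ : ℂ)
        rw [Complex.normSq_eq_norm_sq, norm_four] at this
        simpa using this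
      rw [h2, one_smul]
    rw [sum_congr rfl h1, sum_add_distrib]
    refine (norm_add_le _ _).trans (add_le_add ?_ ?_)
    · rw [sum_comm]
      refine (norm_sum_le _ _).trans ?_
      calc _ ≤ ∑ _n ∈ Icc 1 N, (η * L) ^ 2 := sum_le_sum fun n _ => diag_le hf p hp1 n
        _ = _ := by rw [sum_const, Nat.card_Icc, Nat.add_sub_cancel, nsmul_eq_mul]
    · refine (norm_sum_le _ _).trans ?_
      calc _ ≤ ∑ _h ∈ range L, L * (η ^ 2 * N) := by
            refine sum_le_sum fun h hh => ?_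
            refine (norm_sum_le _ _).trans ?_
            calc _ ≤ ∑ _h' ∈ (range L).erase h, η ^ 2 * N := by
                  refine sum_le_sum fun h' hh' => ?_
                  rw [norm_smul, hnf, one_mul]
                  rw [mem_erase] at hh'
                  exact hN₁ h h' (Ne.symm hh'.1) N (hN1 h hh h' hh'.2) hNE
              _ ≤ L * (η ^ 2 * N) := by
                  rw [sum_const, nsmul_eq_mul]
                  apply mul_le_mul_of_nonneg_right _ (by positivity)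
                  have := card_erase_le (s := range L) (a := h)
                  rw [card_range] at this
                  exact_mod_cast this
        _ = _ := by rw [sum_const, card_range, nsmul_eq_mul]
  have e7 : ‖∑ n ∈ Icc 1 N, ∑ j, a n j * b n j‖ ≤ 3 / 2 * (η * L * N) := by
    refine le_of_sq_le_sq ?_ (by positivity)
    refine (cs_prod (Icc 1 N) a b).trans ?_
    calc _ ≤ (N * (η * L) ^ 2 + L * (L * (η ^ 2 * N))) * N := mul_le_mul e6 e4 (norm_nonneg _) (by positivity)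
      _ = 2 * (η * L * N) ^ 2 := by ring
      _ ≤ (3 / 2 * (η * L * N)) ^ 2 := by nlinarith [sq_nonneg (η * L * N)]
  have e8 : L * ‖S‖ ≤ L * (4 * η * N) := by
    have h1 : ‖(L : ℂ) • S‖ = L * ‖S‖ := by rw [norm_smul, Complex.norm_natCast]
    rw [← h1, e1]
    refine (norm_add_le _ _).trans (le_trans (add_le_add (norm_add_le _ _) le_rfl) ?_)
    have h2 : L * (2 * L * ‖x‖) ≤ L * (η * N / 2) := by
      apply mul_le_mul_of_nonneg_left _ hL0.le
      linarith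
    nlinarith [mul_nonneg hL0.le (mul_nonneg hη.le hN0)]
  exact le_of_mul_le_mul_left e8 hL0

end

end Pool.Agent.N237.MD
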