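import Pool.Agent.N237.MD.Rel

set_option autoImplicit false

/-! # Linear contractions: slow vectors -/

namespace Pool.Agent.N237.MD

open Finset Filter Topology
open Pool.Agent.R296.SM

noncomputable section

universe u

section eig

variable {A : Type u} [CStarAlgebra A] {α : A →⋆ₐ[ℂ] A} {E : Set ℕ} {f : ℕ → ℤ}

lemma gd_eig {x : A} (hx : Gd α E f x) {c b : A} (hc : c ∈ Eig α) (hb : b ∈ Eig α) : Gd α E f (c * x * b) := by
  obtain ⟨l, hl, hlc⟩ := hc
  obtain ⟨l', hl', hlb⟩ := hb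
  obtain ⟨θ₁, h1⟩ := exists_angle hl
  obtain ⟨θ₂, h2⟩ := exists_angle hl'
  intro ε hε
  obtain ⟨N₀, h3⟩ := hx (ε / (‖c‖ * ‖b‖ + 1)) (by positivity)
  refine ⟨N₀, fun N hN hNE θ => ?_⟩
  have e1 : ∑ m ∈ Icc 1 N, tws f θ m • (α ^ m) (c * x * b) =
      c * (∑ m ∈ Icc 1 N, tws f (θ + θ₁ + θ₂) m • (α ^ m) x) * b := by
    rw [mul_sum, sum_mul]
    refine sum_congr rfl fun m _ => ?_
    rw [map_mul, map_mul, pow_eig α hlc, pow_eig α hlb, h1, h2, ← tws_add, ← tws_add]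
    simp only [smul_mul_assoc, mul_smul_comm, smul_smul]
    congr 1
    ring
  rw [e1]
  calc _ ≤ ‖c‖ * ‖∑ m ∈ Icc 1 N, tws f (θ + θ₁ + θ₂) m • (α ^ m) x‖ * ‖b‖ := by
        refine (norm_mul_le _ _).trans (mul_le_mul_of_nonneg_right (norm_mul_le _ _) (norm_nonneg _))
    _ ≤ ‖c‖ * (ε / (‖c‖ * ‖b‖ + 1) * N) * ‖b‖ := by
        gcongr
        exact h3 N hN hNE _
    _ = ε * N * ((‖c‖ * ‖b‖) / (‖c‖ * ‖b‖ + 1)) := by ring
    _ ≤ ε * N * 1 := by
        apply mul_le_mul_of_nonneg_left _ (by positivity)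
        rw [div_le_one (by positivity)]
        linarith
    _ = _ := mul_one _

lemma gd_star {x : A} (hx : Gd α E f x) : Gd α E f (star x) := by
  intro ε hε
  obtain ⟨N₀, h3⟩ := hx ε hε
  refine ⟨N₀, fun N hN hNE θ => ?_⟩
  have e1 : ∑ m ∈ Icc 1 N, tws f θ m • (α ^ m) (star x) = star (∑ m ∈ Icc 1 N, tws f (-θ) m • (α ^ m) x) := by
    rw [star_sum]
    refine sum_congr rfl fun m _ => ?_
    rw [star_smul, map_star]
    congr 1
    unfold tws
    rw [star_mul]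
    have h1 : star ((f m : ℤ) : ℂ) = (f m : ℂ) := by simp
    have h2 : star (fourier (m : ℤ) (-θ) : ℂ) = fourier (m : ℤ) θ := by
      rw [fourier_apply, fourier_apply, smul_neg, AddCircle.toCircle_neg, Circle.coe_inv_eq_conj]
      simp
    rw [h1, h2, mul_comm]
  rw [e1, norm_star]
  exact h3 N hN hNE _

/-- relatively slow elements, for the almost periodic subalgebra -/
def RelSlow (α : A →⋆ₐ[ℂ] A) (x : A) : Prop := ∀ η : ℝ, 0 < η → ∃ (L k : ℕ) (w : Fin k → A) (p : Fin k → ℕ → A),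
  1 ≤ L ∧ (∀ j h, p j h ∈ APs α) ∧
  ‖∑ j, star (w j) * w j‖ * ‖∑ h ∈ range L, ∑ j, p j h * star (p j h)‖ ≤ (η * L) ^ 2 ∧
  ∑ h ∈ range L, ‖(α ^ h) x - ∑ j, p j h * w j‖ ≤ η * L

theorem relSlow_gd (hf : ∀ n, |f n| ≤ 1) (hw : Wt E f) {x : A} (hx : RelSlow α x) : Gd α E f x := by
  intro ε hε
  obtain ⟨L, k, w, p, hL, hp, h1, h2⟩ := hx (ε / 4) (by positivity)
  set W := ‖∑ j, star (w j) * w j‖ with hW
  have key : ∃ (w' : Fin k → A) (p' : Fin k → ℕ → A), (∀ j h, p' j h ∈ APs α) ∧ ‖∑ j, star (w' j) * w' j‖ ≤ 1 ∧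
      ‖∑ h ∈ range L, ∑ j, p' j h * star (p' j h)‖ ≤ (ε / 4 * L) ^ 2 ∧
      ∀ h, ∑ j, p' j h * w' j = ∑ j, p j h * w j := by
    rcases eq_or_lt_of_le (norm_nonneg (∑ j, star (w j) * w j)) with h0 | h0
    · have hw0 : ∀ j, w j = 0 := by
        letI : PartialOrder A := CStarAlgebra.spectralOrder A
        haveI : StarOrderedRing A := CStarAlgebra.spectralOrderedRing A
        have h3 : ∑ j, star (w j) * w j = 0 := norm_eq_zero.1 h0.symm
        have h4 := (sum_eq_zero_iff_of_nonneg fun j _ => star_mul_self_nonneg (w j)).1 h3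
        intro j
        exact (CStarRing.star_mul_self_eq_zero_iff (w j)).1 (h4 j (mem_univ j))
      refine ⟨fun _ => 0, fun _ _ => 0, fun _ _ => Subalgebra.zero_mem _, by simp, ?_, fun h => ?_⟩
      · simp only [star_zero, mul_zero, sum_const_zero, norm_zero]
        positivity
      · simp only [hw0, mul_zero, sum_const_zero]
    · have hW0 : 0 < W := h0
      set s := Real.sqrt W with hs
      have hs0 : 0 < s := Real.sqrt_pos.2 hW0
      have hss : s * s = W := Real.mul_self_sqrt hW0.le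
      refine ⟨fun j => ((s⁻¹ : ℝ) : ℂ) • w j, fun j h => ((s : ℝ) : ℂ) • p j h,
        fun j h => Subalgebra.smul_mem _ (hp j h) _, ?_, ?_, ?_⟩
      · have h3 : ∑ j, star (((s⁻¹ : ℝ) : ℂ) • w j) * (((s⁻¹ : ℝ) : ℂ) • w j) =
            ((W⁻¹ : ℝ) : ℂ) • ∑ j, star (w j) * w j := by
          rw [smul_sum]
          refine sum_congr rfl fun j _ => ?_
          rw [star_smul, smul_mul_smul_comm]
          congr 1
          rw [← hss, mul_inv]
          simp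
        rw [h3, norm_smul, Complex.norm_real, Real.norm_eq_abs, abs_of_pos (inv_pos.2 hW0), ← hW,
          inv_mul_cancel₀ hW0.ne']
      · have h3 : ∑ h ∈ range L, ∑ j, (((s : ℝ) : ℂ) • p j h) * star (((s : ℝ) : ℂ) • p j h) =
            ((W : ℝ) : ℂ) • ∑ h ∈ range L, ∑ j, p j h * star (p j h) := by
          rw [smul_sum]
          refine sum_congr rfl fun h _ => ?_
          rw [smul_sum]
          refine sum_congr rfl fun j _ => ?_
          rw [star_smul, smul_mul_smul_comm]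
          congr 1
          rw [← hss]
          simp
        rw [h3, norm_smul, Complex.norm_real, Real.norm_eq_abs, abs_of_pos hW0]
        exact h1
      · intro h
        refine sum_congr rfl fun j _ => ?_
        rw [smul_mul_smul_comm, ← Complex.ofReal_mul, mul_inv_cancel₀ hs0.ne', Complex.ofReal_one, one_smul]
  obtain ⟨w', p', k1, k2, k3, k4⟩ := key
  obtain ⟨N₀, h5⟩ := rel_small hf hw (show 0 < ε / 4 by positivity) hL w' p' k1 k2 k3 (by simpa only [k4] using h2)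
  refine ⟨N₀, fun N hN hNE θ => (h5 N hN hNE θ).trans (le_of_eq (by ring))⟩

/-- elements which are compact relative to the almost periodic subalgebra -/
def RelCompact (α : A →⋆ₐ[ℂ] A) (x : A) : Prop := ∀ ε : ℝ, 0 < ε → ∃ (k : ℕ) (w : Fin k → A) (M : ℝ),
  ∀ h : ℕ, ∃ p : Fin k → A, (∀ j, p j ∈ APs α) ∧ ‖∑ j, p j * star (p j)‖ ≤ M ∧ ‖(α ^ h) x - ∑ j, p j * w j‖ ≤ ε

theorem RelCompact.slow {x : A} (hx : RelCompact α x) : RelSlow α x := by
  intro η hη
  obtain ⟨k, w, M, h1⟩ := hx η hη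
  choose p hp1 hp2 hp3 using h1
  have hM : 0 ≤ M := (norm_nonneg _).trans (hp2 0)
  obtain ⟨L, hL⟩ := exists_nat_ge (‖∑ j, star (w j) * w j‖ * M / η ^ 2)
  refine ⟨L + 1, k, w, fun j h => p h j, by omega, fun j h => hp1 h j, ?_, ?_⟩
  · have h2 : ‖∑ h ∈ range (L + 1), ∑ j, p h j * star (p h j)‖ ≤ (L + 1 : ℕ) * M := by
      refine (norm_sum_le _ _).trans ((sum_le_sum fun h _ => hp2 h).trans ?_)
      rw [sum_const, card_range, nsmul_eq_mul]
    have h3 : ‖∑ j, star (w j) * w j‖ * M ≤ η ^ 2 * (L + 1 : ℕ) := by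
      rw [div_le_iff₀ (by positivity)] at hL
      push_cast
      nlinarith [sq_nonneg η]
    calc _ ≤ ‖∑ j, star (w j) * w j‖ * ((L + 1 : ℕ) * M) := mul_le_mul_of_nonneg_left h2 (norm_nonneg _)
      _ = (L + 1 : ℕ) * (‖∑ j, star (w j) * w j‖ * M) := by ring
      _ ≤ (L + 1 : ℕ) * (η ^ 2 * (L + 1 : ℕ)) := mul_le_mul_of_nonneg_left h3 (by positivity)
      _ = _ := by ring
  · refine (sum_le_sum fun h _ => hp3 h).trans ?_
    rw [sum_const, card_range, nsmul_eq_mul, mul_comm]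

end eig

/-! ### linear contractions -/

section contr

variable {X : Type u} [NormedAddCommGroup X] [NormedSpace ℂ X] {T : X →L[ℂ] X} {E : Set ℕ} {f : ℕ → ℤ}

lemma it_le (hT : ‖T‖ ≤ 1) (k : ℕ) (x : X) : ‖(T^[k]) x‖ ≤ ‖x‖ := by
  induction k with
  | zero => simp
  | succ k ih =>
    rw [Function.iterate_succ_apply']
    refine (T.le_opNorm _).trans ?_
    calc ‖T‖ * ‖(T^[k]) x‖ ≤ 1 * ‖x‖ := mul_le_mul hT ih (norm_nonneg _) zero_le_one
      _ = ‖x‖ := one_mul _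

lemma it_pow (k : ℕ) (x : X) : (T^[k]) x = (T ^ k) x := by
  induction k with
  | zero => rfl
  | succ k ih =>
    rw [Function.iterate_succ_apply', ih, pow_succ']
    rfl

/-- the vector `x` is slow -/
def SlowV (T : X → X) (x : X) : Prop := ∀ η : ℝ, 0 < η → ∃ L : ℕ, 1 ≤ L ∧
  ∃ (E : Type) (_ : NormedAddCommGroup E) (_ : InnerProductSpace ℂ E) (c : ℕ → E),
    ∑ h ∈ range L, ‖c h‖ ^ 2 ≤ (η * L) ^ 2 ∧
    ∀ v : ℕ → ℂ, (∀ h, ‖v h‖ ≤ 1) →
      ‖∑ h ∈ range L, v h • (T^[h]) x‖ ≤ ‖∑ h ∈ range L, v h • c h‖ + η * L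

/-- disjointness in norm -/
def GdT (T : X → X) (E : Set ℕ) (f : ℕ → ℤ) (x : X) : Prop :=
  ∀ ε : ℝ, 0 < ε → ∃ N₀ : ℕ, ∀ N : ℕ, N₀ ≤ N → N ∉ E → ∀ θ : UnitAddCircle,
    ‖∑ m ∈ Icc 1 N, tws f θ m • (T^[m]) x‖ ≤ ε * N

lemma corr (hf : ∀ n, |f n| ≤ 1) (hw : Wt E f) (h h' : ℕ) (hne : h ≠ h') (ε : ℝ)
    (hε : 0 < ε) : ∃ N₀ : ℕ, ∀ N : ℕ, N₀ ≤ N → N ∉ E →
      ‖∑ n ∈ Icc 1 N, ((f (n + h) : ℂ) * f (n + h'))‖ ≤ ε * N := by
  obtain ⟨N₀, h1⟩ := kil_ne (A := ℂ) (α := StarAlgHom.id ℂ ℂ) hf hw (p := 1) (Subalgebra.one_mem _) h h' hne ε hε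
  refine ⟨N₀, fun N hN hNE => le_trans (le_of_eq ?_) (h1 N hN hNE)⟩
  congr 1
  refine sum_congr rfl fun n _ => ?_
  rw [map_one, smul_eq_mul, mul_one]

theorem slowV_gd (hf : ∀ n, |f n| ≤ 1) (hw : Wt E f) (hT : ‖T‖ ≤ 1) {x : X} (hx : SlowV T x) : GdT T E f x := by
  intro ε hε
  obtain ⟨η, hηd⟩ : ∃ η : ℝ, η = ε / 4 := ⟨_, rfl⟩
  have hη : 0 < η := by rw [hηd]; positivity
  obtain ⟨L, hL, F, iF, iF', c, hc, hv⟩ := hx η hη
  have hL0 : (0 : ℝ) < L := by exact_mod_cast hL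
  obtain ⟨G, hG⟩ : ∃ G : ℝ, G = ∑ h ∈ range L, ∑ h' ∈ range L, ‖c h‖ * ‖c h'‖ := ⟨_, rfl⟩
  have hG0 : 0 ≤ G := by rw [hG]; exact sum_nonneg fun _ _ => sum_nonneg fun _ _ => by positivity
  have hk : ∀ h h' : ℕ, ∃ N₀ : ℕ, h ≠ h' → ∀ N : ℕ, N₀ ≤ N → N ∉ E →
      ‖∑ n ∈ Icc 1 N, ((f (n + h) : ℂ) * f (n + h'))‖ ≤ (η * L) ^ 2 / (G + 1) * N := by
    intro h h'
    by_cases hne : h = h'
    · exact ⟨0, fun h => absurd hne h⟩
    · obtain ⟨N₀, h1⟩ := corr hf hw h h' hne ((η * L) ^ 2 / (G + 1)) (by positivity)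
      exact ⟨N₀, fun _ => h1⟩
  choose N₁ hN₁ using hk
  obtain ⟨B, hB⟩ := exists_nat_ge (4 * L * ‖x‖ / η)
  refine ⟨(∑ h ∈ range L, ∑ h' ∈ range L, N₁ h h') + B, fun N hN hNE θ => ?_⟩
  have hN1 : ∀ h ∈ range L, ∀ h' ∈ range L, N₁ h h' ≤ N := by
    intro h hh h' hh'
    have h2 : N₁ h h' ≤ ∑ h' ∈ range L, N₁ h h' :=
      single_le_sum (f := fun h' => N₁ h h') (fun _ _ => Nat.zero_le _) hh'
    have h3 : ∑ h' ∈ range L, N₁ h h' ≤ ∑ h ∈ range L, ∑ h' ∈ range L, N₁ h h' :=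
      single_le_sum (f := fun h => ∑ h' ∈ range L, N₁ h h') (fun _ _ => Nat.zero_le _) hh
    omega
  have hNB : 4 * L * ‖x‖ ≤ η * N := by
    have h2 : 4 * L * ‖x‖ / η ≤ N := hB.trans (Nat.cast_le.2 (by omega))
    rw [div_le_iff₀ hη] at h2
    linarith
  have hN0 : (0 : ℝ) ≤ N := Nat.cast_nonneg _
  set S := ∑ m ∈ Icc 1 N, tws f θ m • (T^[m]) x with hS
  have e1 : (L : ℂ) • S = (∑ h ∈ range L, (S - ∑ n ∈ Icc 1 N, tws f θ (n + h) • (T^[n + h]) x)) +
      (∑ n ∈ Icc 1 N, ∑ h ∈ range L, tws f θ (n + h) • (T^[n + h]) x) := by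
    rw [sum_sub_distrib, sum_const, card_range, sum_comm, sub_add_cancel, ← Nat.cast_smul_eq_nsmul ℂ]
  have e2 : ‖∑ h ∈ range L, (S - ∑ n ∈ Icc 1 N, tws f θ (n + h) • (T^[n + h]) x)‖ ≤ L * (2 * L * ‖x‖) := by
    refine (norm_sum_le _ _).trans ?_
    calc _ ≤ ∑ _h ∈ range L, 2 * L * ‖x‖ := by
          refine sum_le_sum fun h hh => ?_
          refine (shift_le (fun m => tws f θ m • (T^[m]) x) ‖x‖ (fun m => ?_) N h).trans ?_
          · rw [norm_smul]
            calc _ ≤ 1 * ‖x‖ := mul_le_mul (norm_tws hf θ m) (it_le hT m x) (norm_nonneg _) zero_le_one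
              _ = ‖x‖ := one_mul _
          · have : (h : ℝ) ≤ L := by exact_mod_cast (mem_range.1 hh).le
            gcongr
      _ = _ := by rw [sum_const, card_range, nsmul_eq_mul]
  -- each window
  have e3 : ∀ n, ‖∑ h ∈ range L, tws f θ (n + h) • (T^[n + h]) x‖ ≤
      ‖∑ h ∈ range L, tws f θ (n + h) • c h‖ + η * L := by
    intro n
    have h1 : ∑ h ∈ range L, tws f θ (n + h) • (T^[n + h]) x =
        (T ^ n) (∑ h ∈ range L, tws f θ (n + h) • (T^[h]) x) := by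
      rw [map_sum]
      refine sum_congr rfl fun h _ => ?_
      rw [map_smul, it_pow, it_pow, pow_add]
      rfl
    rw [h1, ← it_pow]
    exact (it_le hT n _).trans (hv _ fun h => norm_tws hf θ _)
  have e4 : ∀ n, ‖∑ h ∈ range L, tws f θ (n + h) • c h‖ ^ 2 = ∑ h ∈ range L, ∑ h' ∈ range L,
      RCLike.re ((star (tws f θ (n + h)) * tws f θ (n + h')) * inner ℂ (c h) (c h')) := by
    intro n
    rw [← inner_self_eq_norm_sq (𝕜 := ℂ), sum_inner, map_sum]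
    refine sum_congr rfl fun h _ => ?_
    rw [inner_sum, map_sum]
    refine sum_congr rfl fun h' _ => ?_
    rw [inner_smul_left, inner_smul_right, mul_assoc]
    rfl
  have e5 : ∑ n ∈ Icc 1 N, ‖∑ h ∈ range L, tws f θ (n + h) • c h‖ ^ 2 ≤ 2 * (η * L) ^ 2 * N := by
    simp_rw [e4]
    rw [sum_comm]
    have h1 : ∀ h ∈ range L, ∑ n ∈ Icc 1 N, ∑ h' ∈ range L,
        RCLike.re ((star (tws f θ (n + h)) * tws f θ (n + h')) * inner ℂ (c h) (c h')) ≤
        N * ‖c h‖ ^ 2 + ∑ h' ∈ range L, (η * L) ^ 2 / (G + 1) * N * (‖c h‖ * ‖c h'‖) := by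
      intro h hh
      rw [sum_comm, ← add_sum_erase _ _ hh]
      refine add_le_add ?_ ?_
      · calc _ ≤ ∑ _n ∈ Icc 1 N, ‖c h‖ ^ 2 := by
              refine sum_le_sum fun n _ => ?_
              refine (RCLike.re_le_norm _).trans ?_
              rw [norm_mul, norm_mul, norm_star]
              have h2 := norm_tws hf θ (n + h)
              have h3 : ‖(inner ℂ (c h) (c h) : ℂ)‖ ≤ ‖c h‖ ^ 2 := by
                rw [sq]; exact norm_inner_le_norm _ _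
              calc _ ≤ 1 * 1 * ‖c h‖ ^ 2 := mul_le_mul (mul_le_mul h2 h2 (norm_nonneg _) zero_le_one) h3
                    (norm_nonneg _) (by norm_num)
                _ = _ := by ring
          _ = _ := by rw [sum_const, Nat.card_Icc, Nat.add_sub_cancel, nsmul_eq_mul]
      · refine le_trans ?_ (sum_le_sum_of_subset_of_nonneg (erase_subset h (range L)) fun _ _ _ => by positivity)
        refine sum_le_sum fun h' hh' => ?_
        rw [mem_erase] at hh'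
        rw [← map_sum, ← sum_mul]
        refine (RCLike.re_le_norm _).trans ?_
        rw [norm_mul]
        refine mul_le_mul ?_ (norm_inner_le_norm _ _) (norm_nonneg _) (by positivity)
        have h4 : ∑ n ∈ Icc 1 N, star (tws f θ (n + h)) * tws f θ (n + h') =
            (fourier (h' : ℤ) θ * star (fourier (h : ℤ) θ) : ℂ) *
              ∑ n ∈ Icc 1 N, ((f (n + h) : ℂ) * f (n + h')) := by
          rw [mul_sum]
          refine sum_congr rfl fun n _ => ?_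
          rw [mul_comm, tws_star, mul_comm ((f (n + h') : ℤ) : ℂ)]
        rw [h4, norm_mul, norm_mul, norm_star, norm_four, norm_four, one_mul, one_mul]
        exact hN₁ h h' (Ne.symm hh'.1) N (hN1 h hh h' hh'.2) hNE
    refine (sum_le_sum h1).trans ?_
    rw [sum_add_distrib, ← mul_sum]
    have h5 : ∑ h ∈ range L, ∑ h' ∈ range L, (η * L) ^ 2 / (G + 1) * N * (‖c h‖ * ‖c h'‖) =
        (η * L) ^ 2 / (G + 1) * N * G := by
      rw [hG, mul_sum]
      exact sum_congr rfl fun h _ => (mul_sum _ _ _).symm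
    rw [h5]
    have h6 : (η * L) ^ 2 / (G + 1) * N * G ≤ (η * L) ^ 2 * N := by
      rw [div_mul_eq_mul_div, div_mul_eq_mul_div, div_le_iff₀ (by positivity)]
      nlinarith [mul_nonneg (sq_nonneg (η * L)) hN0]
    have h7 : (N : ℝ) * ∑ h ∈ range L, ‖c h‖ ^ 2 ≤ N * (η * L) ^ 2 := mul_le_mul_of_nonneg_left hc hN0
    nlinarith
  have e6 : ∑ n ∈ Icc 1 N, ‖∑ h ∈ range L, tws f θ (n + h) • c h‖ ≤ 3 / 2 * (η * L * N) := by
    refine le_of_sq_le_sq ?_ (by positivity)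
    have h1 := sum_mul_sq_le_sq_mul_sq (Icc 1 N) (fun _ => (1 : ℝ)) (fun n => ‖∑ h ∈ range L, tws f θ (n + h) • c h‖)
    simp only [one_mul, one_pow, sum_const, Nat.card_Icc, Nat.add_sub_cancel, nsmul_eq_mul, mul_one] at h1
    refine h1.trans ?_
    calc _ ≤ (N : ℝ) * (2 * (η * L) ^ 2 * N) := mul_le_mul_of_nonneg_left e5 hN0
      _ = 2 * (η * L * N) ^ 2 := by ring
      _ ≤ (3 / 2 * (η * L * N)) ^ 2 := by nlinarith [sq_nonneg (η * L * N)]
  have e7 : ‖∑ n ∈ Icc 1 N, ∑ h ∈ range L, tws f θ (n + h) • (T^[n + h]) x‖ ≤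
      3 / 2 * (η * L * N) + N * (η * L) := by
    refine (norm_sum_le _ _).trans ((sum_le_sum fun n _ => e3 n).trans ?_)
    rw [sum_add_distrib, sum_const, Nat.card_Icc, Nat.add_sub_cancel, nsmul_eq_mul]
    linarith
  have e8 : L * ‖S‖ ≤ L * (ε * N) := by
    have h1 : ‖(L : ℂ) • S‖ = L * ‖S‖ := by rw [norm_smul, Complex.norm_natCast]
    rw [← h1, e1]
    refine (norm_add_le _ _).trans ?_
    have h2 : L * (2 * L * ‖x‖) ≤ L * (η * N / 2) := by
      apply mul_le_mul_of_nonneg_left _ hL0.le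
      linarith
    have h3 : ε = 4 * η := by rw [hηd]; ring
    rw [h3]
    nlinarith [mul_nonneg hL0.le (mul_nonneg hη.le hN0)]
  exact le_of_mul_le_mul_left e8 hL0

lemma GdT.zero : GdT T E f (0 : X) := by
  intro ε hε
  refine ⟨0, fun N _ _ θ => ?_⟩
  simp only [it_pow, map_zero, smul_zero, sum_const_zero, norm_zero]
  positivity

lemma GdT.add {a b : X} (ha : GdT T E f a) (hb : GdT T E f b) : GdT T E f (a + b) := by
  intro ε hε
  obtain ⟨N₁, h1⟩ := ha (ε / 2) (by positivity)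
  obtain ⟨N₂, h2⟩ := hb (ε / 2) (by positivity)
  refine ⟨max N₁ N₂, fun N hN hNE θ => ?_⟩
  have e1 := h1 N (le_trans (le_max_left _ _) hN) hNE θ
  have e2 := h2 N (le_trans (le_max_right _ _) hN) hNE θ
  simp only [it_pow, map_add, smul_add, sum_add_distrib] at e1 e2 ⊢
  exact (norm_add_le _ _).trans (by linarith)

lemma GdT.smul {a : X} (ha : GdT T E f a) (c : ℂ) : GdT T E f (c • a) := by
  intro ε hε
  obtain ⟨N₁, h1⟩ := ha (ε / (‖c‖ + 1)) (by positivity)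
  refine ⟨N₁, fun N hN hNE θ => ?_⟩
  have e1 := h1 N hN hNE θ
  simp only [it_pow] at e1 ⊢
  simp_rw [map_smul, smul_comm _ c, ← smul_sum]
  rw [norm_smul]
  calc _ ≤ ‖c‖ * (ε / (‖c‖ + 1) * N) := mul_le_mul_of_nonneg_left e1 (norm_nonneg _)
    _ = ε * N * (‖c‖ / (‖c‖ + 1)) := by ring
    _ ≤ ε * N * 1 := by
        apply mul_le_mul_of_nonneg_left _ (by positivity)
        rw [div_le_one (by positivity)]
        linarith
    _ = _ := mul_one _

lemma GdT.lim (hf : ∀ n, |f n| ≤ 1) (hT : ‖T‖ ≤ 1) {a : X}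
    (h : ∀ η : ℝ, 0 < η → ∃ b : X, GdT T E f b ∧ ‖a - b‖ ≤ η) : GdT T E f a := by
  intro ε hε
  obtain ⟨b, hb, hab⟩ := h (ε / 2) (by positivity)
  obtain ⟨N₁, h1⟩ := hb (ε / 2) (by positivity)
  refine ⟨N₁, fun N hN hNE θ => ?_⟩
  have e1 := h1 N hN hNE θ
  have e2 : ∑ m ∈ Icc 1 N, tws f θ m • (T^[m]) a =
      ∑ m ∈ Icc 1 N, tws f θ m • (T^[m]) b + ∑ m ∈ Icc 1 N, tws f θ m • (T^[m]) (a - b) := by
    rw [← sum_add_distrib]
    refine sum_congr rfl fun n _ => ?_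
    rw [it_pow, it_pow, it_pow, ← smul_add, ← map_add, add_sub_cancel]
  have e3 : ‖∑ m ∈ Icc 1 N, tws f θ m • (T^[m]) (a - b)‖ ≤ N * (ε / 2) := by
    refine (norm_sum_le _ _).trans ?_
    calc ∑ m ∈ Icc 1 N, ‖tws f θ m • (T^[m]) (a - b)‖ ≤ ∑ _m ∈ Icc 1 N, ε / 2 := by
          refine sum_le_sum fun n _ => ?_
          rw [norm_smul]
          calc ‖tws f θ n‖ * ‖(T^[n]) (a - b)‖ ≤ 1 * (ε / 2) :=
                mul_le_mul (norm_tws hf θ n) ((it_le hT n _).trans hab) (norm_nonneg _) zero_le_one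
            _ = ε / 2 := one_mul _
      _ = _ := by rw [sum_const, Nat.card_Icc, Nat.add_sub_cancel, nsmul_eq_mul]
  rw [e2]
  refine (norm_add_le _ _).trans ?_
  linarith

lemma GdT.closure (hf : ∀ n, |f n| ≤ 1) (hT : ‖T‖ ≤ 1) {D : Set X} (hD : ∀ x ∈ D, GdT T E f x) {x : X}
    (hx : x ∈ closure (Submodule.span ℂ D : Set X)) : GdT T E f x := by
  refine GdT.lim hf hT fun η hη => ?_
  obtain ⟨q, hq, hpq⟩ := Metric.mem_closure_iff.1 hx η hη
  refine ⟨q, ?_, by rw [← dist_eq_norm]; exact hpq.le⟩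
  clear hpq
  induction hq using Submodule.span_induction with
  | mem x hx => exact hD x hx
  | zero => exact GdT.zero
  | add x y _ _ hx hy => exact hx.add hy
  | smul c x _ hx => exact hx.smul c

end contr

end

end Pool.Agent.N237.MD
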