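import Pool.Agent.N237.MD.Car
import Pool.Agent.N237.MD.Slow

set_option autoImplicit false

/-! # Quadratic observables and spaces of sublinear dimension -/

namespace Pool.Agent.N237.MD

open Finset

noncomputable section

universe u

variable {H : Type} [NormedAddCommGroup H] [InnerProductSpace ℂ H] {A : Type u} [CStarAlgebra A]
  {c : H →ₗ[ℂ] A}

lemma bog_iter {U : H ≃ₗᵢ[ℂ] H} {α : A →⋆ₐ[ℂ] A} (hα : ∀ ξ, α (c ξ) = c (U ξ)) (ξ ζ : H) (n : ℕ) :
    (α^[n]) (c ξ * star (c ζ)) = c ((U ^ n) ξ) * star (c ((U ^ n) ζ)) := by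
  induction n with
  | zero => simp
  | succ n ih =>
    rw [Function.iterate_succ_apply', ih, map_mul, map_star, hα, hα]
    have h1 : ∀ x : H, (U ^ (n + 1)) x = U ((U ^ n) x) := fun x => by
      rw [pow_succ']
      rfl
    rw [h1, h1]

/-- the norm of a sum of quadratic observables, in terms of the coordinates -/
lemma two_norm (h : IsCAR c) {d r : ℕ} {e : Fin d → H} (he : Orthonormal ℂ e) {g : Fin r → H}
    (hg : Orthonormal ℂ g) (L : ℕ) (a : ℕ → Fin d → ℂ) (ζ : ℕ → H)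
    (hζ : ∀ i, i < L → ∑ k, (inner ℂ (g k) (ζ i) : ℂ) • g k = ζ i) :
    ‖∑ i ∈ range L, c (∑ j, a i j • e j) * star (c (ζ i))‖ ^ 2 ≤
      d * ∑ j, ∑ k, ‖∑ i ∈ range L, a i j * star (inner ℂ (g k) (ζ i) : ℂ)‖ ^ 2 := by
  set w : Fin d → H := fun j => ∑ i ∈ range L, star (a i j) • ζ i with hw
  have h1 : ∑ i ∈ range L, c (∑ j, a i j • e j) * star (c (ζ i)) = ∑ j, c (e j) * star (c (w j)) := by
    simp only [map_sum, map_smul, sum_mul, hw, star_sum, star_smul, star_star, mul_sum]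
    rw [sum_comm]
    refine sum_congr rfl fun j _ => sum_congr rfl fun i _ => ?_
    rw [smul_mul_assoc, mul_smul_comm]
  have h2 : ‖∑ j, c (e j) * star (c (w j))‖ ≤ ∑ j, ‖w j‖ := by
    refine (norm_sum_le _ _).trans (sum_le_sum fun j _ => ?_)
    refine (norm_mul_le _ _).trans ?_
    calc ‖c (e j)‖ * ‖star (c (w j))‖ ≤ 1 * ‖w j‖ := by
          refine mul_le_mul ?_ (h.norm_star_le _) (norm_nonneg _) zero_le_one
          have := h.norm_le (e j)
          rwa [he.1 j] at this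
      _ = ‖w j‖ := one_mul _
  have h3 : (∑ j, ‖w j‖) ^ 2 ≤ d * ∑ j, ‖w j‖ ^ 2 := by
    have := sq_sum_le_card_mul_sum_sq (s := (univ : Finset (Fin d))) (f := fun j => ‖w j‖)
    simpa using this
  have h4 : ∀ j, ‖w j‖ ^ 2 = ∑ k, ‖∑ i ∈ range L, a i j * star (inner ℂ (g k) (ζ i) : ℂ)‖ ^ 2 := by
    intro j
    have h5 : w j = ∑ k, (∑ i ∈ range L, star (a i j) * (inner ℂ (g k) (ζ i) : ℂ)) • g k := by
      simp only [hw, sum_smul]
      rw [sum_comm]
      refine sum_congr rfl fun i hi => ?_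
      conv_lhs => rw [← hζ i (mem_range.1 hi)]
      rw [smul_sum]
      exact sum_congr rfl fun k _ => by rw [smul_smul]
    have h6 : ‖w j‖ ^ 2 = ∑ k, ‖∑ i ∈ range L, star (a i j) * (inner ℂ (g k) (ζ i) : ℂ)‖ ^ 2 := by
      rw [h5]
      have h7 := hg.inner_sum (fun k => ∑ i ∈ range L, star (a i j) * (inner ℂ (g k) (ζ i) : ℂ))
        (fun k => ∑ i ∈ range L, star (a i j) * (inner ℂ (g k) (ζ i) : ℂ)) univ
      rw [inner_self_eq_norm_sq_to_K] at h7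
      have h8 : ((‖∑ k, (∑ i ∈ range L, star (a i j) * (inner ℂ (g k) (ζ i) : ℂ)) • g k‖ ^ 2 : ℝ) : ℂ) =
          ((∑ k, ‖∑ i ∈ range L, star (a i j) * (inner ℂ (g k) (ζ i) : ℂ)‖ ^ 2 : ℝ) : ℂ) := by
        push_cast
        refine h7.trans (sum_congr rfl fun k _ => ?_)
        rw [← Complex.normSq_eq_conj_mul_self, Complex.normSq_eq_norm_sq]
        push_cast
        rfl
      exact_mod_cast h8
    rw [h6]
    refine sum_congr rfl fun k _ => ?_
    congr 1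
    rw [← norm_star, star_sum]
    congr 1
    refine sum_congr rfl fun i _ => ?_
    rw [star_mul', star_star]
  calc ‖∑ i ∈ range L, c (∑ j, a i j • e j) * star (c (ζ i))‖ ^ 2 ≤ (∑ j, ‖w j‖) ^ 2 := by
        rw [h1]
        exact pow_le_pow_left₀ (norm_nonneg _) h2 2
    _ ≤ d * ∑ j, ‖w j‖ ^ 2 := h3
    _ = _ := by
        congr 1
        exact sum_congr rfl fun j _ => h4 j

/-- the approximation property of the orbit of `ξ` -/
def Near (U : H ≃ₗᵢ[ℂ] H) (ξ : H) : Prop := ∀ ε : ℝ, 0 < ε → ∃ L₀ : ℕ, ∀ L : ℕ, L₀ ≤ L →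
    ∃ (d : ℕ) (e : Fin d → H), Orthonormal ℂ e ∧ (d : ℝ) ≤ ε * L ∧
      ∀ h : ℕ, h < L → ‖(U ^ h) ξ - ∑ j, (inner ℂ (e j) ((U ^ h) ξ) : ℂ) • e j‖ ≤ ε

theorem two_slow (h : IsCAR c) {U : H ≃ₗᵢ[ℂ] H} {α : A →⋆ₐ[ℂ] A} (hα : ∀ ξ, α (c ξ) = c (U ξ))
    {ξ : H} (hξ : Near U ξ) (ζ : H) : SlowV (⇑α) (c ξ * star (c ζ)) := by
  intro η hη
  obtain ⟨R, hR⟩ : ∃ R : ℝ, R = 1 + ‖ξ‖ + ‖ζ‖ := ⟨_, rfl⟩
  have hR1 : 1 ≤ R := by rw [hR]; linarith [norm_nonneg ξ, norm_nonneg ζ]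
  have hRξ : ‖ξ‖ ≤ R := by rw [hR]; linarith [norm_nonneg ξ, norm_nonneg ζ]
  have hRζ : ‖ζ‖ ≤ R := by rw [hR]; linarith [norm_nonneg ξ, norm_nonneg ζ]
  have hR0 : 0 < R := by linarith
  obtain ⟨ε, hε0, hε1, hε2⟩ : ∃ ε : ℝ, 0 < ε ∧ ε * R ≤ η ∧ ε * (R ^ 2 * R ^ 2) ≤ η ^ 2 := by
    refine ⟨min (η / R) (η ^ 2 / (R ^ 2 * R ^ 2)), by positivity, ?_, ?_⟩
    · calc min (η / R) (η ^ 2 / (R ^ 2 * R ^ 2)) * R ≤ η / R * R :=
            mul_le_mul_of_nonneg_right (min_le_left _ _) hR0.le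
        _ = η := by field_simp
    · calc min (η / R) (η ^ 2 / (R ^ 2 * R ^ 2)) * (R ^ 2 * R ^ 2) ≤
            η ^ 2 / (R ^ 2 * R ^ 2) * (R ^ 2 * R ^ 2) :=
            mul_le_mul_of_nonneg_right (min_le_right _ _) (by positivity)
        _ = η ^ 2 := by field_simp
  obtain ⟨L₀, hL₀⟩ := hξ ε hε0
  obtain ⟨L, hL⟩ : ∃ L : ℕ, L = L₀ + 1 := ⟨_, rfl⟩
  obtain ⟨d, e, he, hd, happ⟩ := hL₀ L (by omega)
  refine ⟨L, by omega, ?_⟩
  -- an orthonormal basis of the span of the second vectors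
  set S : Submodule ℂ H := Submodule.span ℂ (Set.range fun i : Fin L => (U ^ (i : ℕ)) ζ) with hS
  haveI : FiniteDimensional ℂ S := FiniteDimensional.span_of_finite ℂ (Set.finite_range _)
  set b := stdOrthonormalBasis ℂ S with hb
  obtain ⟨r, hr⟩ : ∃ r : ℕ, r = Module.finrank ℂ S := ⟨_, rfl⟩
  set g : Fin (Module.finrank ℂ S) → H := fun k => (b k : H) with hg
  have hgo : Orthonormal ℂ g := b.orthonormal.comp_linearIsometry S.subtypeₗᵢ
  have hgζ : ∀ i, i < L → ∑ k, (inner ℂ (g k) ((U ^ i) ζ) : ℂ) • g k = (U ^ i) ζ := by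
    intro i hi
    have hmem : (U ^ i) ζ ∈ S := Submodule.subset_span ⟨⟨i, hi⟩, rfl⟩
    have h1 := b.sum_repr' ⟨(U ^ i) ζ, hmem⟩
    have h2 := congrArg (fun x : S => (x : H)) h1
    simpa [hg] using h2
  refine ⟨EuclideanSpace ℂ (Fin d × Fin (Module.finrank ℂ S)), inferInstance, inferInstance,
    fun i => WithLp.toLp 2 (fun p => (Real.sqrt d : ℂ) * ((inner ℂ (e p.1) ((U ^ i) ξ) : ℂ) *
      star (inner ℂ (g p.2) ((U ^ i) ζ) : ℂ))), ?_, ?_⟩
  · have h1 : ∀ i ∈ range L, ‖(WithLp.toLp 2 (fun p : Fin d × Fin (Module.finrank ℂ S) =>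
        (Real.sqrt d : ℂ) * ((inner ℂ (e p.1) ((U ^ i) ξ) : ℂ) *
        star (inner ℂ (g p.2) ((U ^ i) ζ) : ℂ))) : EuclideanSpace ℂ (Fin d × Fin (Module.finrank ℂ S)))‖ ^ 2 ≤
        (ε * L) * (R ^ 2 * R ^ 2) := by
      intro i _
      rw [EuclideanSpace.norm_sq_eq]
      simp only [norm_mul, mul_pow]
      rw [Fintype.sum_prod_type]
      have h2 : ∑ j : Fin d, ‖(inner ℂ (e j) ((U ^ i) ξ) : ℂ)‖ ^ 2 ≤ R ^ 2 := by
        refine (he.sum_inner_products_le ((U ^ i) ξ) (s := univ)).trans ?_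
        rw [LinearIsometryEquiv.norm_map]
        exact pow_le_pow_left₀ (norm_nonneg _) hRξ 2
      have h3 : ∑ k, ‖(inner ℂ (g k) ((U ^ i) ζ) : ℂ)‖ ^ 2 ≤ R ^ 2 := by
        refine (hgo.sum_inner_products_le ((U ^ i) ζ) (s := univ)).trans ?_
        rw [LinearIsometryEquiv.norm_map]
        exact pow_le_pow_left₀ (norm_nonneg _) hRζ 2
      have h4 : ‖(Real.sqrt d : ℂ)‖ ^ 2 = d := by
        rw [Complex.norm_real, Real.norm_eq_abs, sq_abs, Real.sq_sqrt (Nat.cast_nonneg _)]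
      simp only [norm_star]
      simp only [h4, ← mul_sum]
      rw [← sum_mul]
      have h5 := mul_le_mul h2 h3 (sum_nonneg fun _ _ => by positivity) (by positivity)
      exact mul_le_mul hd h5 (mul_nonneg (sum_nonneg fun _ _ => by positivity)
        (sum_nonneg fun _ _ => by positivity)) (by positivity)
    calc _ ≤ ∑ i ∈ range L, (ε * L) * (R ^ 2 * R ^ 2) := sum_le_sum h1
      _ = (ε * (R ^ 2 * R ^ 2)) * (L : ℝ) ^ 2 := by rw [sum_const, card_range, nsmul_eq_mul]; ring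
      _ ≤ η ^ 2 * (L : ℝ) ^ 2 := mul_le_mul_of_nonneg_right hε2 (by positivity)
      _ = (η * L) ^ 2 := by ring
  · intro v hv
    have h1 : ∑ i ∈ range L, v i • (α^[i]) (c ξ * star (c ζ)) =
        (∑ i ∈ range L, c (∑ j, (v i * (inner ℂ (e j) ((U ^ i) ξ) : ℂ)) • e j) * star (c ((U ^ i) ζ))) +
        ∑ i ∈ range L, v i • (c ((U ^ i) ξ - ∑ j, (inner ℂ (e j) ((U ^ i) ξ) : ℂ) • e j) *
          star (c ((U ^ i) ζ))) := by
      rw [← sum_add_distrib]
      refine sum_congr rfl fun i _ => ?_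
      rw [bog_iter hα, map_sub, sub_mul, smul_sub]
      have h2 : c (∑ j, (v i * (inner ℂ (e j) ((U ^ i) ξ) : ℂ)) • e j) =
          v i • c (∑ j, (inner ℂ (e j) ((U ^ i) ξ) : ℂ) • e j) := by
        rw [← map_smul, smul_sum]
        simp only [smul_smul]
      rw [h2, smul_mul_assoc]
      abel
    rw [h1]
    refine (norm_add_le _ _).trans (add_le_add ?_ ?_)
    · have h2 := two_norm h he hgo L (fun i j => v i * (inner ℂ (e j) ((U ^ i) ξ) : ℂ))
        (fun i => (U ^ i) ζ) hgζ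
      refine le_of_sq_le_sq ?_ (norm_nonneg _)
      refine h2.trans (le_of_eq ?_)
      rw [EuclideanSpace.norm_sq_eq, Fintype.sum_prod_type, mul_sum]
      refine sum_congr rfl fun j _ => ?_
      rw [mul_sum]
      refine sum_congr rfl fun k _ => ?_
      have h4 : (d : ℝ) = ‖(Real.sqrt d : ℂ)‖ ^ 2 := by
        rw [Complex.norm_real, Real.norm_eq_abs, sq_abs, Real.sq_sqrt (Nat.cast_nonneg _)]
      conv_lhs => rw [h4]
      rw [← mul_pow, ← norm_mul]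
      congr 2
      rw [mul_sum]
      simp only [WithLp.ofLp_sum, Finset.sum_apply, WithLp.ofLp_smul, Pi.smul_apply, smul_eq_mul]
      refine sum_congr rfl fun i _ => ?_
      ring
    · calc _ ≤ ∑ i ∈ range L, ‖v i • (c ((U ^ i) ξ - ∑ j, (inner ℂ (e j) ((U ^ i) ξ) : ℂ) • e j) *
          star (c ((U ^ i) ζ)))‖ := norm_sum_le _ _
        _ ≤ ∑ i ∈ range L, η := by
            refine sum_le_sum fun i hi => ?_
            rw [norm_smul]
            have h3 : ‖c ((U ^ i) ξ - ∑ j, (inner ℂ (e j) ((U ^ i) ξ) : ℂ) • e j)‖ ≤ ε :=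
              (h.norm_le _).trans (happ i (mem_range.1 hi))
            have h4 : ‖star (c ((U ^ i) ζ))‖ ≤ R := by
              refine (h.norm_star_le _).trans ?_
              rw [LinearIsometryEquiv.norm_map]
              exact hRζ
            calc _ ≤ 1 * (ε * R) := by
                  refine mul_le_mul (hv i) ((norm_mul_le _ _).trans
                    (mul_le_mul h3 h4 (norm_nonneg _) hε0.le)) (norm_nonneg _) zero_le_one
              _ ≤ η := by rw [one_mul]; exact hε1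
        _ = η * L := by rw [sum_const, card_range, nsmul_eq_mul]; ring

/-- the same for products of two creation operators -/
lemma two_norm2 (h : IsCAR c) {d r : ℕ} {e : Fin d → H} (he : Orthonormal ℂ e) {g : Fin r → H}
    (hg : Orthonormal ℂ g) (L : ℕ) (a : ℕ → Fin d → ℂ) (ζ : ℕ → H)
    (hζ : ∀ i, i < L → ∑ k, (inner ℂ (g k) (ζ i) : ℂ) • g k = ζ i) :
    ‖∑ i ∈ range L, c (∑ j, a i j • e j) * c (ζ i)‖ ^ 2 ≤
      d * ∑ j, ∑ k, ‖∑ i ∈ range L, a i j * (inner ℂ (g k) (ζ i) : ℂ)‖ ^ 2 := by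
  set w : Fin d → H := fun j => ∑ i ∈ range L, a i j • ζ i with hw
  have h1 : ∑ i ∈ range L, c (∑ j, a i j • e j) * c (ζ i) = ∑ j, c (e j) * c (w j) := by
    simp only [map_sum, map_smul, sum_mul, hw, mul_sum]
    rw [sum_comm]
    refine sum_congr rfl fun j _ => sum_congr rfl fun i _ => ?_
    rw [smul_mul_assoc, mul_smul_comm]
  have h2 : ‖∑ j, c (e j) * c (w j)‖ ≤ ∑ j, ‖w j‖ := by
    refine (norm_sum_le _ _).trans (sum_le_sum fun j _ => ?_)
    refine (norm_mul_le _ _).trans ?_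
    calc ‖c (e j)‖ * ‖c (w j)‖ ≤ 1 * ‖w j‖ := by
          refine mul_le_mul ?_ (h.norm_le _) (norm_nonneg _) zero_le_one
          have := h.norm_le (e j)
          rwa [he.1 j] at this
      _ = ‖w j‖ := one_mul _
  have h3 : (∑ j, ‖w j‖) ^ 2 ≤ d * ∑ j, ‖w j‖ ^ 2 := by
    have := sq_sum_le_card_mul_sum_sq (s := (univ : Finset (Fin d))) (f := fun j => ‖w j‖)
    simpa using this
  have h4 : ∀ j, ‖w j‖ ^ 2 = ∑ k, ‖∑ i ∈ range L, a i j * (inner ℂ (g k) (ζ i) : ℂ)‖ ^ 2 := by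
    intro j
    have h5 : w j = ∑ k, (∑ i ∈ range L, a i j * (inner ℂ (g k) (ζ i) : ℂ)) • g k := by
      simp only [hw, sum_smul]
      rw [sum_comm]
      refine sum_congr rfl fun i hi => ?_
      conv_lhs => rw [← hζ i (mem_range.1 hi)]
      rw [smul_sum]
      exact sum_congr rfl fun k _ => by rw [smul_smul]
    rw [h5]
    have h7 := hg.inner_sum (fun k => ∑ i ∈ range L, a i j * (inner ℂ (g k) (ζ i) : ℂ))
      (fun k => ∑ i ∈ range L, a i j * (inner ℂ (g k) (ζ i) : ℂ)) univ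
    rw [inner_self_eq_norm_sq_to_K] at h7
    have h8 : ((‖∑ k, (∑ i ∈ range L, a i j * (inner ℂ (g k) (ζ i) : ℂ)) • g k‖ ^ 2 : ℝ) : ℂ) =
        ((∑ k, ‖∑ i ∈ range L, a i j * (inner ℂ (g k) (ζ i) : ℂ)‖ ^ 2 : ℝ) : ℂ) := by
      push_cast
      refine h7.trans (sum_congr rfl fun k _ => ?_)
      rw [← Complex.normSq_eq_conj_mul_self, Complex.normSq_eq_norm_sq]
      push_cast
      rfl
    exact_mod_cast h8
  calc ‖∑ i ∈ range L, c (∑ j, a i j • e j) * c (ζ i)‖ ^ 2 ≤ (∑ j, ‖w j‖) ^ 2 := by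
        rw [h1]
        exact pow_le_pow_left₀ (norm_nonneg _) h2 2
    _ ≤ d * ∑ j, ‖w j‖ ^ 2 := h3
    _ = _ := by
        congr 1
        exact sum_congr rfl fun j _ => h4 j



lemma bog_iter2 {U : H ≃ₗᵢ[ℂ] H} {α : A →⋆ₐ[ℂ] A} (hα : ∀ ξ, α (c ξ) = c (U ξ)) (ξ ζ : H) (n : ℕ) :
    (α^[n]) (c ξ * c ζ) = c ((U ^ n) ξ) * c ((U ^ n) ζ) := by
  induction n with
  | zero => simp
  | succ n ih =>
    rw [Function.iterate_succ_apply', ih, map_mul, hα, hα]
    have h1 : ∀ x : H, (U ^ (n + 1)) x = U ((U ^ n) x) := fun x => by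
      rw [pow_succ']
      rfl
    rw [h1, h1]

lemma bog_iter1 {U : H ≃ₗᵢ[ℂ] H} {α : A →⋆ₐ[ℂ] A} (hα : ∀ ξ, α (c ξ) = c (U ξ)) (ξ : H) (n : ℕ) :
    (α^[n]) (c ξ) = c ((U ^ n) ξ) := by
  induction n with
  | zero => simp
  | succ n ih =>
    rw [Function.iterate_succ_apply', ih, hα]
    have h1 : ∀ x : H, (U ^ (n + 1)) x = U ((U ^ n) x) := fun x => by
      rw [pow_succ']
      rfl
    rw [h1]

/-- linear observables are slow, whatever the spectrum -/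
theorem one_slow (h : IsCAR c) {U : H ≃ₗᵢ[ℂ] H} {α : A →⋆ₐ[ℂ] A} (hα : ∀ ξ, α (c ξ) = c (U ξ))
    (ξ : H) : SlowV (⇑α) (c ξ) := by
  intro η hη
  obtain ⟨L, hL⟩ := exists_nat_ge (‖ξ‖ ^ 2 / η ^ 2 + 1)
  have hL1 : 1 ≤ L := by
    have : (1 : ℝ) ≤ L := le_trans (by have : 0 ≤ ‖ξ‖ ^ 2 / η ^ 2 := by positivity
                                       linarith) hL
    exact_mod_cast this
  have hL2 : ‖ξ‖ ^ 2 ≤ η ^ 2 * L := by
    have : ‖ξ‖ ^ 2 / η ^ 2 ≤ L := by linarith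
    rwa [div_le_iff₀ (by positivity), mul_comm] at this
  refine ⟨L, hL1, H, inferInstance, inferInstance, fun i => (U ^ i) ξ, ?_, fun v _ => ?_⟩
  · simp only [LinearIsometryEquiv.norm_map]
    rw [sum_const, card_range, nsmul_eq_mul]
    have h3 : (0 : ℝ) ≤ L := Nat.cast_nonneg _
    calc (L : ℝ) * ‖ξ‖ ^ 2 ≤ L * (η ^ 2 * L) := mul_le_mul_of_nonneg_left hL2 h3
      _ = (η * L) ^ 2 := by ring
  · have h1 : ∑ i ∈ range L, v i • (α^[i]) (c ξ) = c (∑ i ∈ range L, v i • (U ^ i) ξ) := by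
      rw [map_sum]
      refine sum_congr rfl fun i _ => ?_
      rw [bog_iter1 hα, map_smul]
    rw [h1]
    have h2 : 0 ≤ η * L := by positivity
    exact (h.norm_le _).trans (by linarith)

theorem two_slow2 (h : IsCAR c) {U : H ≃ₗᵢ[ℂ] H} {α : A →⋆ₐ[ℂ] A} (hα : ∀ ξ, α (c ξ) = c (U ξ))
    {ξ : H} (hξ : Near U ξ) (ζ : H) : SlowV (⇑α) (c ξ * c ζ) := by
  intro η hη
  obtain ⟨R, hR⟩ : ∃ R : ℝ, R = 1 + ‖ξ‖ + ‖ζ‖ := ⟨_, rfl⟩
  have hR1 : 1 ≤ R := by rw [hR]; linarith [norm_nonneg ξ, norm_nonneg ζ]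
  have hRξ : ‖ξ‖ ≤ R := by rw [hR]; linarith [norm_nonneg ξ, norm_nonneg ζ]
  have hRζ : ‖ζ‖ ≤ R := by rw [hR]; linarith [norm_nonneg ξ, norm_nonneg ζ]
  have hR0 : 0 < R := by linarith
  obtain ⟨ε, hε0, hε1, hε2⟩ : ∃ ε : ℝ, 0 < ε ∧ ε * R ≤ η ∧ ε * (R ^ 2 * R ^ 2) ≤ η ^ 2 := by
    refine ⟨min (η / R) (η ^ 2 / (R ^ 2 * R ^ 2)), by positivity, ?_, ?_⟩
    · calc min (η / R) (η ^ 2 / (R ^ 2 * R ^ 2)) * R ≤ η / R * R :=
            mul_le_mul_of_nonneg_right (min_le_left _ _) hR0.le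
        _ = η := by field_simp
    · calc min (η / R) (η ^ 2 / (R ^ 2 * R ^ 2)) * (R ^ 2 * R ^ 2) ≤
            η ^ 2 / (R ^ 2 * R ^ 2) * (R ^ 2 * R ^ 2) :=
            mul_le_mul_of_nonneg_right (min_le_right _ _) (by positivity)
        _ = η ^ 2 := by field_simp
  obtain ⟨L₀, hL₀⟩ := hξ ε hε0
  obtain ⟨L, hL⟩ : ∃ L : ℕ, L = L₀ + 1 := ⟨_, rfl⟩
  obtain ⟨d, e, he, hd, happ⟩ := hL₀ L (by omega)
  refine ⟨L, by omega, ?_⟩
  -- an orthonormal basis of the span of the second vectors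
  set S : Submodule ℂ H := Submodule.span ℂ (Set.range fun i : Fin L => (U ^ (i : ℕ)) ζ) with hS
  haveI : FiniteDimensional ℂ S := FiniteDimensional.span_of_finite ℂ (Set.finite_range _)
  set b := stdOrthonormalBasis ℂ S with hb
  obtain ⟨r, hr⟩ : ∃ r : ℕ, r = Module.finrank ℂ S := ⟨_, rfl⟩
  set g : Fin (Module.finrank ℂ S) → H := fun k => (b k : H) with hg
  have hgo : Orthonormal ℂ g := b.orthonormal.comp_linearIsometry S.subtypeₗᵢ
  have hgζ : ∀ i, i < L → ∑ k, (inner ℂ (g k) ((U ^ i) ζ) : ℂ) • g k = (U ^ i) ζ := by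
    intro i hi
    have hmem : (U ^ i) ζ ∈ S := Submodule.subset_span ⟨⟨i, hi⟩, rfl⟩
    have h1 := b.sum_repr' ⟨(U ^ i) ζ, hmem⟩
    have h2 := congrArg (fun x : S => (x : H)) h1
    simpa [hg] using h2
  refine ⟨EuclideanSpace ℂ (Fin d × Fin (Module.finrank ℂ S)), inferInstance, inferInstance,
    fun i => WithLp.toLp 2 (fun p => (Real.sqrt d : ℂ) * ((inner ℂ (e p.1) ((U ^ i) ξ) : ℂ) *
      (inner ℂ (g p.2) ((U ^ i) ζ) : ℂ))), ?_, ?_⟩
  · have h1 : ∀ i ∈ range L, ‖(WithLp.toLp 2 (fun p : Fin d × Fin (Module.finrank ℂ S) =>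
        (Real.sqrt d : ℂ) * ((inner ℂ (e p.1) ((U ^ i) ξ) : ℂ) *
        (inner ℂ (g p.2) ((U ^ i) ζ) : ℂ))) : EuclideanSpace ℂ (Fin d × Fin (Module.finrank ℂ S)))‖ ^ 2 ≤
        (ε * L) * (R ^ 2 * R ^ 2) := by
      intro i _
      rw [EuclideanSpace.norm_sq_eq]
      simp only [norm_mul, mul_pow]
      rw [Fintype.sum_prod_type]
      have h2 : ∑ j : Fin d, ‖(inner ℂ (e j) ((U ^ i) ξ) : ℂ)‖ ^ 2 ≤ R ^ 2 := by
        refine (he.sum_inner_products_le ((U ^ i) ξ) (s := univ)).trans ?_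
        rw [LinearIsometryEquiv.norm_map]
        exact pow_le_pow_left₀ (norm_nonneg _) hRξ 2
      have h3 : ∑ k, ‖(inner ℂ (g k) ((U ^ i) ζ) : ℂ)‖ ^ 2 ≤ R ^ 2 := by
        refine (hgo.sum_inner_products_le ((U ^ i) ζ) (s := univ)).trans ?_
        rw [LinearIsometryEquiv.norm_map]
        exact pow_le_pow_left₀ (norm_nonneg _) hRζ 2
      have h4 : ‖(Real.sqrt d : ℂ)‖ ^ 2 = d := by
        rw [Complex.norm_real, Real.norm_eq_abs, sq_abs, Real.sq_sqrt (Nat.cast_nonneg _)]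
      simp only [h4, ← mul_sum]
      rw [← sum_mul]
      have h5 := mul_le_mul h2 h3 (sum_nonneg fun _ _ => by positivity) (by positivity)
      exact mul_le_mul hd h5 (mul_nonneg (sum_nonneg fun _ _ => by positivity)
        (sum_nonneg fun _ _ => by positivity)) (by positivity)
    calc _ ≤ ∑ i ∈ range L, (ε * L) * (R ^ 2 * R ^ 2) := sum_le_sum h1
      _ = (ε * (R ^ 2 * R ^ 2)) * (L : ℝ) ^ 2 := by rw [sum_const, card_range, nsmul_eq_mul]; ring
      _ ≤ η ^ 2 * (L : ℝ) ^ 2 := mul_le_mul_of_nonneg_right hε2 (by positivity)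
      _ = (η * L) ^ 2 := by ring
  · intro v hv
    have h1 : ∑ i ∈ range L, v i • (α^[i]) (c ξ * c ζ) =
        (∑ i ∈ range L, c (∑ j, (v i * (inner ℂ (e j) ((U ^ i) ξ) : ℂ)) • e j) * c ((U ^ i) ζ)) +
        ∑ i ∈ range L, v i • (c ((U ^ i) ξ - ∑ j, (inner ℂ (e j) ((U ^ i) ξ) : ℂ) • e j) *
          c ((U ^ i) ζ)) := by
      rw [← sum_add_distrib]
      refine sum_congr rfl fun i _ => ?_
      rw [bog_iter2 hα, map_sub, sub_mul, smul_sub]
      have h2 : c (∑ j, (v i * (inner ℂ (e j) ((U ^ i) ξ) : ℂ)) • e j) =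
          v i • c (∑ j, (inner ℂ (e j) ((U ^ i) ξ) : ℂ) • e j) := by
        rw [← map_smul, smul_sum]
        simp only [smul_smul]
      rw [h2, smul_mul_assoc]
      abel
    rw [h1]
    refine (norm_add_le _ _).trans (add_le_add ?_ ?_)
    · have h2 := two_norm2 h he hgo L (fun i j => v i * (inner ℂ (e j) ((U ^ i) ξ) : ℂ))
        (fun i => (U ^ i) ζ) hgζ
      refine le_of_sq_le_sq ?_ (norm_nonneg _)
      refine h2.trans (le_of_eq ?_)
      rw [EuclideanSpace.norm_sq_eq, Fintype.sum_prod_type, mul_sum]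
      refine sum_congr rfl fun j _ => ?_
      rw [mul_sum]
      refine sum_congr rfl fun k _ => ?_
      have h4 : (d : ℝ) = ‖(Real.sqrt d : ℂ)‖ ^ 2 := by
        rw [Complex.norm_real, Real.norm_eq_abs, sq_abs, Real.sq_sqrt (Nat.cast_nonneg _)]
      conv_lhs => rw [h4]
      rw [← mul_pow, ← norm_mul]
      congr 2
      rw [mul_sum]
      simp only [WithLp.ofLp_sum, Finset.sum_apply, WithLp.ofLp_smul, Pi.smul_apply, smul_eq_mul]
      refine sum_congr rfl fun i _ => ?_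
      ring
    · calc _ ≤ ∑ i ∈ range L, ‖v i • (c ((U ^ i) ξ - ∑ j, (inner ℂ (e j) ((U ^ i) ξ) : ℂ) • e j) *
          c ((U ^ i) ζ))‖ := norm_sum_le _ _
        _ ≤ ∑ i ∈ range L, η := by
            refine sum_le_sum fun i hi => ?_
            rw [norm_smul]
            have h3 : ‖c ((U ^ i) ξ - ∑ j, (inner ℂ (e j) ((U ^ i) ξ) : ℂ) • e j)‖ ≤ ε :=
              (h.norm_le _).trans (happ i (mem_range.1 hi))
            have h4 : ‖c ((U ^ i) ζ)‖ ≤ R := by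
              refine (h.norm_le _).trans ?_
              rw [LinearIsometryEquiv.norm_map]
              exact hRζ
            calc _ ≤ 1 * (ε * R) := by
                  refine mul_le_mul (hv i) ((norm_mul_le _ _).trans
                    (mul_le_mul h3 h4 (norm_nonneg _) hε0.le)) (norm_nonneg _) zero_le_one
              _ ≤ η := by rw [one_mul]; exact hε1
        _ = η * L := by rw [sum_const, card_range, nsmul_eq_mul]; ring

end

end Pool.Agent.N237.MD
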